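import Pool.Agent.helper52.IR.SpecC

/-! Row `ir:IRM`: assembly of the improved reflection. -/

set_option autoImplicit false

open scoped MatrixGroups ContDiff Topology UpperHalfPlane ComplexConjugate ENNReal
open UpperHalfPlane MeasureTheory Filter Set

namespace Pool.Agent.IR

open Pool.Agent.RS
open Pool.Agent.MS (bq BB BA SF pf)
open Pool.Agent.EN (XG MG mkX mkM fl pr)
open Pool.Agent.ER (Low LowJ)

/-- pointwise bound -/
theorem IRM_pt (J : Finset ℤ) (c : ℤ → ℂ) (v : ℝ) :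
    ‖∑ j ∈ J, c j * Complex.exp (((Real.pi * j * v / 2 : ℝ) : ℂ) * Complex.I)‖ ^ 2 ≤ J.card * ∑ j ∈ J, ‖c j‖ ^ 2 := by
  have h1 : ‖∑ j ∈ J, c j * Complex.exp (((Real.pi * j * v / 2 : ℝ) : ℂ) * Complex.I)‖ ≤ ∑ j ∈ J, ‖c j‖ := by
    refine (norm_sum_le _ _).trans (Finset.sum_le_sum fun j _ => ?_)
    rw [norm_mul, Complex.norm_exp_ofReal_mul_I, mul_one]
  exact (pow_le_pow_left₀ (norm_nonneg _) h1 2).trans sq_sum_le_card_mul_sum_sq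

theorem IRM_cont (J : Finset ℤ) (c : ℤ → ℂ) :
    Continuous fun v : ℝ => ‖∑ j ∈ J, c j * Complex.exp (((Real.pi * j * v / 2 : ℝ) : ℂ) * Complex.I)‖ ^ 2 := by
  refine (continuous_norm.comp (continuous_finsetSum _ fun j _ => ?_)).pow 2
  exact continuous_const.mul (Complex.continuous_exp.comp ((Complex.continuous_ofReal.comp (by fun_prop)).mul continuous_const))

theorem IRM_int (Y : Set ℝ) (hY1 : Y ⊆ Icc 0 1) (J : Finset ℤ) (c : ℤ → ℂ) :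
    IntegrableOn (fun v : ℝ => ‖∑ j ∈ J, c j * Complex.exp (((Real.pi * j * v / 2 : ℝ) : ℂ) * Complex.I)‖ ^ 2) Y :=
  ((IRM_cont J c).integrableOn_Icc (a := 0) (b := 1)).mono_set hY1

theorem IRM_triv (Y : Set ℝ) (hY : MeasurableSet Y) (hY1 : Y ⊆ Icc 0 1) (J : Finset ℤ) (c : ℤ → ℂ) (m y : ℝ)
    (hm : (J.card : ℝ) ≤ m) (hy : volume.real Y ≤ y) :
    ∫ v in Y, ‖∑ j ∈ J, c j * Complex.exp (((Real.pi * j * v / 2 : ℝ) : ℂ) * Complex.I)‖ ^ 2 ≤ m * y * ∑ j ∈ J, ‖c j‖ ^ 2 := by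
  have hfin : volume Y ≠ ⊤ := ne_of_lt (lt_of_le_of_lt (measure_mono hY1) (by simp))
  have hS : 0 ≤ ∑ j ∈ J, ‖c j‖ ^ 2 := Finset.sum_nonneg fun j _ => by positivity
  have h1 : ∫ v in Y, ‖∑ j ∈ J, c j * Complex.exp (((Real.pi * j * v / 2 : ℝ) : ℂ) * Complex.I)‖ ^ 2 ≤
      ∫ _ in Y, ((J.card : ℝ) * ∑ j ∈ J, ‖c j‖ ^ 2) :=
    setIntegral_mono_on (IRM_int Y hY1 J c) (integrableOn_const hfin) hY (fun v _ => IRM_pt J c v)
  rw [setIntegral_const, smul_eq_mul] at h1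
  refine h1.trans ?_
  have h2 : 0 ≤ volume.real Y := measureReal_nonneg
  have h3 : (0 : ℝ) ≤ J.card := Nat.cast_nonneg _
  have h4 : volume.real Y * J.card ≤ m * y := by
    rw [mul_comm]
    exact mul_le_mul hm hy h2 (h3.trans hm)
  calc volume.real Y * (J.card * ∑ j ∈ J, ‖c j‖ ^ 2) = volume.real Y * J.card * ∑ j ∈ J, ‖c j‖ ^ 2 := by ring
    _ ≤ m * y * ∑ j ∈ J, ‖c j‖ ^ 2 := mul_le_mul_of_nonneg_right h4 hS

theorem IRM_split (Y : Set ℝ) (hY : MeasurableSet Y) (hY1 : Y ⊆ Icc 0 1) (J J1 : Finset ℤ) (hJ1 : J1 ⊆ J) (c : ℤ → ℂ) (A B : ℝ)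
    (hA : 0 ≤ A) (hB : 0 ≤ B)
    (h1 : ∫ v in Y, ‖∑ j ∈ J1, c j * Complex.exp (((Real.pi * j * v / 2 : ℝ) : ℂ) * Complex.I)‖ ^ 2 ≤ A * ∑ j ∈ J1, ‖c j‖ ^ 2)
    (h2 : ∫ v in Y, ‖∑ j ∈ J \ J1, c j * Complex.exp (((Real.pi * j * v / 2 : ℝ) : ℂ) * Complex.I)‖ ^ 2 ≤ B * ∑ j ∈ J \ J1, ‖c j‖ ^ 2) :
    ∫ v in Y, ‖∑ j ∈ J, c j * Complex.exp (((Real.pi * j * v / 2 : ℝ) : ℂ) * Complex.I)‖ ^ 2 ≤ 2 * (A + B) * ∑ j ∈ J, ‖c j‖ ^ 2 := by
  have hs : ∀ f : ℤ → ℝ, ∑ j ∈ J, f j = ∑ j ∈ J1, f j + ∑ j ∈ J \ J1, f j := by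
    intro f
    rw [add_comm, Finset.sum_sdiff hJ1]
  have hp : ∀ v : ℝ, ‖∑ j ∈ J, c j * Complex.exp (((Real.pi * j * v / 2 : ℝ) : ℂ) * Complex.I)‖ ^ 2 ≤
      2 * ‖∑ j ∈ J1, c j * Complex.exp (((Real.pi * j * v / 2 : ℝ) : ℂ) * Complex.I)‖ ^ 2 +
      2 * ‖∑ j ∈ J \ J1, c j * Complex.exp (((Real.pi * j * v / 2 : ℝ) : ℂ) * Complex.I)‖ ^ 2 := by
    intro v
    rw [← Finset.sum_sdiff hJ1]
    have h3 := norm_add_le (∑ j ∈ J \ J1, c j * Complex.exp (((Real.pi * j * v / 2 : ℝ) : ℂ) * Complex.I))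
      (∑ j ∈ J1, c j * Complex.exp (((Real.pi * j * v / 2 : ℝ) : ℂ) * Complex.I))
    have h4 := norm_nonneg (∑ j ∈ J \ J1, c j * Complex.exp (((Real.pi * j * v / 2 : ℝ) : ℂ) * Complex.I) +
      ∑ j ∈ J1, c j * Complex.exp (((Real.pi * j * v / 2 : ℝ) : ℂ) * Complex.I))
    have h5 := pow_le_pow_left₀ h4 h3 2
    refine h5.trans ?_
    nlinarith [sq_nonneg (‖∑ j ∈ J \ J1, c j * Complex.exp (((Real.pi * j * v / 2 : ℝ) : ℂ) * Complex.I)‖ -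
      ‖∑ j ∈ J1, c j * Complex.exp (((Real.pi * j * v / 2 : ℝ) : ℂ) * Complex.I)‖)]
  have h3 := setIntegral_mono_on (IRM_int Y hY1 J c) (((IRM_int Y hY1 J1 c).const_mul 2).add ((IRM_int Y hY1 (J \ J1) c).const_mul 2)) hY
    (fun v _ => hp v)
  have h4 := integral_add ((IRM_int Y hY1 J1 c).const_mul 2) ((IRM_int Y hY1 (J \ J1) c).const_mul 2)
  rw [integral_const_mul, integral_const_mul] at h4
  have hS1 : 0 ≤ ∑ j ∈ J1, ‖c j‖ ^ 2 := Finset.sum_nonneg fun j _ => by positivity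
  have hS2 : 0 ≤ ∑ j ∈ J \ J1, ‖c j‖ ^ 2 := Finset.sum_nonneg fun j _ => by positivity
  rw [hs]
  refine h3.trans ?_
  refine (le_of_eq h4).trans ?_
  nlinarith [mul_nonneg hA hS2, mul_nonneg hB hS1]

theorem IRM_exp (C ε' Q : ℝ) (_hC : 0 ≤ C) (hε : 0 < ε') (hQ : 0 < Q) : ∃ q0 : ℕ, ∀ q : ℕ, q0 ≤ q → C * Real.exp (-(ε' * q)) ≤ Q := by
  have h1 : Tendsto (fun q : ℕ => C * Real.exp (-(ε' * q))) atTop (𝓝 (C * 0)) := by
    refine Tendsto.const_mul _ (Real.tendsto_exp_neg_atTop_nhds_zero.comp ?_)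
    exact Tendsto.const_mul_atTop hε tendsto_natCast_atTop_atTop
  rw [mul_zero] at h1
  obtain ⟨q0, h2⟩ := eventually_atTop.1 (h1.eventually_le_const hQ)
  exact ⟨q0, h2⟩

theorem IRM_mass (Γ : Subgroup SL(2, ℝ)) (μ : Measure (XG Γ)) [IsProbabilityMeasure μ] (A B : Set (XG Γ)) (δ : ℝ) (h : μ.real (A \ B) ≤ δ) :
    μ.real A ≤ μ.real B + δ := by
  have h1 : A ⊆ B ∪ (A \ B) := by
    intro x hx
    by_cases hb : x ∈ B
    · exact Or.inl hb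
    · exact Or.inr ⟨hx, hb⟩
  have h2 := (measureReal_mono (μ := μ) h1).trans (measureReal_union_le _ _)
  linarith

theorem IRM_core (hGLC : RS.GLC_stmt) (hFWD : FWD_stmt) (hBK1 : BK1_stmt) (hBK2 : BK2_stmt) (hSFP : SFP_stmt)
    (hNUM : NUM_stmt) (Γ : Subgroup SL(2, ℝ)) (μ : Measure (XG Γ)) (K : ℝ) (hΓ : QU.SurfaceGroup Γ) (hμ : IsProbabilityMeasure μ)
    (hfl : ∀ t, μ.map (fl Γ t) = μ) (hK : 1 ≤ K) (H : GP Γ μ K) :
    ∀ h : ℝ, 1 / 2 < h → h < 1 → μ.real (Low Γ μ h) + μ.real (Low Γ μ ((1 - h) * (1 + (2 * h - 1) / 200))) ≤ 1 := by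
  classical
  intro h h1 h2
  have hlM : Continuous lM := hGLC.2.2.2.2.2.1
  obtain ⟨ρ, hρ⟩ : ∃ ρ, ρ = (1 - h) * (1 + (2 * h - 1) / 200) := ⟨_, rfl⟩
  rw [← hρ]
  have hρ0 : 1 - h ≤ ρ := by rw [hρ]; nlinarith
  have hρ1 : 1 / 2 < 1 - ρ := by rw [hρ]; nlinarith
  have hρp : 0 ≤ ρ := by linarith
  obtain ⟨ε', hε'⟩ : ∃ ε', ε' = (1 - ρ - 1 / 2) / 2 := ⟨_, rfl⟩
  have hε0 : 0 < ε' := by rw [hε']; linarith
  obtain ⟨a1, ha1⟩ : ∃ a1, a1 = 1 - ρ - ε' := ⟨_, rfl⟩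
  have ha1a : 1 / 2 < a1 := by rw [ha1, hε']; linarith
  have ha1b : a1 ≤ h := by rw [ha1]; linarith
  obtain ⟨a0, ha0, HF⟩ := hFWD Γ μ ρ hΓ hμ hfl hρp
  obtain ⟨C3, hC3, HF1⟩ := HF a0 ha0 le_rfl
  obtain ⟨η0, hη0, HN⟩ := hNUM h ρ h1 h2 hρ
  have key : ∀ e : ℝ, 0 < e → e ≤ 1 → μ.real (Low Γ μ h) + μ.real (Low Γ μ ρ) ≤ 1 + 4 * e := by
    intro e he he1
    obtain ⟨δ, hδ⟩ : ∃ δ, δ = (e / 200) ^ 2 := ⟨_, rfl⟩
    have hδ0 : 0 < δ := by rw [hδ]; positivity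
    have hδ1 : δ ≤ 1 := by rw [hδ]; nlinarith
    obtain ⟨Λ2, hΛ⟩ : ∃ Λ2, Λ2 = 4 * K * C3 / δ := ⟨_, rfl⟩
    have hKC : 1 ≤ K * C3 := by nlinarith
    have hΛ1 : 1 ≤ Λ2 := by
      rw [hΛ, le_div_iff₀ hδ0]
      nlinarith
    obtain ⟨C1, p1, hC1, HB1⟩ := hBK1 Γ μ a1 hΓ hμ hfl (by linarith) Λ2 (ε' / 4) e hΛ1 (by linarith) he
    obtain ⟨C2, q2, hC2, HB2⟩ := hBK2 Γ μ h a1 hΓ hμ hfl ha1a ha1b h2.le Λ2 η0 e hΛ1 hη0 he
    obtain ⟨η', hη'⟩ : ∃ η', η' = min η0 (ε' / 4) := ⟨_, rfl⟩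
    have hη'0 : 0 < η' := by rw [hη']; exact lt_min hη0 (by linarith)
    have hη'1 : η' ≤ η0 := by rw [hη']; exact min_le_left _ _
    have hη'2 : η' ≤ ε' / 4 := by rw [hη']; exact min_le_right _ _
    obtain ⟨p3, HF2⟩ := HF1 η' e hη'0 he
    obtain ⟨q4, HN4⟩ := HN (max C2 C3) (δ ^ 2 / 512) (hC2.trans (le_max_left _ _)) (by positivity)
    obtain ⟨q5, HN5⟩ := IRM_exp (C1 * C3) (3 * ε') (δ ^ 2 / 512) (by positivity) (by linarith) (by positivity)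
    obtain ⟨q, hq⟩ : ∃ q, q = max (max p1 q2) (max p3 (max q4 q5)) := ⟨_, rfl⟩
    have e1 : p1 ≤ q := by rw [hq]; exact (le_max_left _ _).trans (le_max_left _ _)
    have e2 : q2 ≤ q := by rw [hq]; exact (le_max_right _ _).trans (le_max_left _ _)
    have e3 : p3 ≤ q := by rw [hq]; exact (le_max_left _ _).trans (le_max_right _ _)
    have e4 : q4 ≤ q := by rw [hq]; exact ((le_max_left _ _).trans (le_max_right _ _)).trans (le_max_right _ _)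
    have e5 : q5 ≤ q := by rw [hq]; exact ((le_max_right _ _).trans (le_max_right _ _)).trans (le_max_right _ _)
    obtain ⟨s0, hs0⟩ : ∃ s0 : ℕ, s0 = ⌊(2 * h - 1) * (2 * q) / 16⌋₊ := ⟨_, rfl⟩
    obtain ⟨s1, hs1⟩ : ∃ s1 : ℕ, s1 = ⌊(2 * h - 1) * (2 * q) / 4⌋₊ := ⟨_, rfl⟩
    obtain ⟨hs0q, hs1q, hNUM'⟩ := HN4 q s0 s1 e4 hs0 hs1
    obtain ⟨εc, hεc⟩ : ∃ εc : ℝ, εc = Real.pi / (2 * Λ2) * Real.exp (-(3 * (2 * q))) := ⟨_, rfl⟩
    have hpi := Real.pi_pos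
    have hεc0 : 0 < εc := by rw [hεc]; positivity
    obtain ⟨Ψ, Ψa, Ψn, Ψl, hSF, hΨ1, hΨn, hΨl, hΨm, hΨY⟩ := HF2 (2 * q) s0 (by omega) hs0q
    obtain ⟨Ψ1, Ψ1a, Ψ1n, Ψ1l, B1, hSF1, hΨ11, hΨ1n, hΨ1l, hΨ1m, hΨ1J⟩ := HB1 (2 * q) εc (by omega) (by rw [hεc]; push_cast; rfl)
    obtain ⟨Ψ2, Ψ2a, Ψ2n, Ψ2l, B2, hSF2, hΨ21, hΨ2n, hΨ2l, hΨ2m, hΨ2J⟩ := HB2 q s1 εc (Real.exp (-s0)) e2 hs1q (Real.exp_pos _)
      (Real.exp_le_one_iff.2 (by have : (0:ℝ) ≤ s0 := Nat.cast_nonneg _; linarith)) hεc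
    have hP := ((hSFP Γ _ _ _ _ ((hSFP Γ _ _ _ _ hSF1).2.1)).1 _ _ _ _ ((hSFP Γ _ _ _ _ hSF2).2.1))
    have hP' := (hSFP Γ _ _ _ _ hP).2.1
    have hb1 : 0 ≤ B1 := (abs_nonneg _).trans (hΨ1n 1)
    have hb2 : 0 ≤ B2 := (abs_nonneg _).trans (hΨ2n 1)
    have hbd : ∀ u v x y : ℝ, 0 ≤ u → u ≤ 1 → 0 ≤ v → v ≤ 1 → |x| ≤ B1 → |y| ≤ B2 →
        |-(-x * (1 - v) + (1 - u) * -y)| ≤ B1 + B2 := by
      intro u v x y hu hu1 hv hv1 hx hy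
      have h3 : |x * (1 - v)| ≤ B1 := by
        rw [abs_mul, abs_of_nonneg (by linarith : (0:ℝ) ≤ 1 - v)]
        calc |x| * (1 - v) ≤ B1 * 1 := mul_le_mul hx (by linarith) (by linarith) hb1
          _ = B1 := mul_one _
      have h4 : |(1 - u) * y| ≤ B2 := by
        rw [abs_mul, abs_of_nonneg (by linarith : (0:ℝ) ≤ 1 - u)]
        calc (1 - u) * |y| ≤ 1 * B2 := mul_le_mul (by linarith) hy (abs_nonneg _) (by linarith)
          _ = B2 := one_mul _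
      have h5 : -(-x * (1 - v) + (1 - u) * -y) = x * (1 - v) + (1 - u) * y := by ring
      rw [h5]
      exact (abs_add_le _ _).trans (add_le_add h3 h4)
    have hcast : (((3 * (2 * q) : ℕ)) : ℝ) = 3 * (2 * (q : ℝ)) := by push_cast; ring
    have hcast2 : ((2 * q : ℕ) : ℝ) = 2 * (q : ℝ) := by push_cast; ring
    simp only [hcast2] at hΨl hΨY hΨ1J
    have hL0 : εc = Real.pi / (4 * (2 * K * (C3 * Real.exp ((3 * (2 * q) : ℕ) : ℝ)) / δ)) := by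
      rw [hεc, hΛ, hcast, Real.exp_neg]
      have h3 : 0 < Real.exp (3 * (2 * (q:ℝ))) := Real.exp_pos _
      field_simp
    have hmain := H e C3 δ _ εc (B1 + B2) (εc / 100) (3 * (2 * q)) Ψ Ψa Ψn Ψl _ _ _ _ he he1 hC3 hδ0 hδ.le rfl hL0 (by positivity) hSF hP' hΨ1
      (fun g => by
        have h3 := hΨ11 g
        have h4 := hΨ21 g
        have h5 : 0 ≤ (1 - Ψ1 g) * (1 - Ψ2 g) := mul_nonneg (by linarith) (by linarith)
        have h6 : (1 - Ψ1 g) * (1 - Ψ2 g) ≤ 1 := by nlinarith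
        constructor <;> linarith)
      hΨn (fun g => by rw [hcast]; exact hΨl g)
      (fun g => hbd _ _ _ _ (hΨ11 g).1 (hΨ11 g).2 (hΨ21 g).1 (hΨ21 g).2 (hΨ1n g) (hΨ2n g))
      (fun g => hbd _ _ _ _ (hΨ11 g).1 (hΨ11 g).2 (hΨ21 g).1 (hΨ21 g).2 (hΨ1l g) (hΨ2l g))
      (by
        rw [hcast]
        intro l g g' J c hl hl0 hJ
        have hYm : MeasurableSet (Icc (0 : ℝ) 1 ∩ {v | Ψ (g' * lM v) ≠ 0}) := by
          refine measurableSet_Icc.inter ?_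
          have h3 : Continuous fun v : ℝ => Ψ (g' * lM v) := hSF.i0.1.comp (continuous_const.mul hlM)
          exact (isOpen_ne_fun h3 continuous_const).measurableSet
        have hY1 : (Icc (0 : ℝ) 1 ∩ {v | Ψ (g' * lM v) ≠ 0}) ⊆ Icc 0 1 := inter_subset_left
        obtain ⟨hy0, hy1, hy2⟩ := hΨY g'
        have hC3m : C3 ≤ max C2 C3 := le_max_right _ _
        have hmono : ∀ x y : ℝ, x ≤ y → C3 * Real.exp x ≤ max C2 C3 * Real.exp y := fun x y hxy =>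
          mul_le_mul hC3m (Real.exp_le_exp.2 hxy) (Real.exp_pos _).le ((zero_le_one.trans hC3).trans hC3m)
        have hq0 : (0 : ℝ) ≤ q := Nat.cast_nonneg _
        have hs0q' : (s0 : ℝ) ≤ 2 * q := by exact_mod_cast hs0q
        set J1 : Finset ℤ := J.filter (fun j => JC {k | Ψ1 (k * aM (-(3 * (2 * (q : ℝ))))) ≠ 0} εc l (εc / 100) g j) with hJ1d
        have hJ1s : J1 ⊆ J := Finset.filter_subset _ _
        have hc1 : (J1.card : ℝ) ≤ C1 * Real.exp ((a1 + ε' / 4) * (3 * (2 * q))) :=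
          hΨ1J l (εc / 100) g J1 hl hl0 le_rfl (fun j hj => (Finset.mem_filter.1 hj).2)
        have hI1 := IRM_triv _ hYm hY1 J1 c _ _ hc1 hy0
        have hI2 := hΨ2J l (εc / 100) g (J \ J1) c _ (max C2 C3 * Real.exp ((ρ + η0) * (3 * (2 * q)) - 3 * (2 * q)))
          (max C2 C3 * Real.exp ((ρ + η0) * (3 * (2 * q) - s0) - 3 * (2 * q))) (max C2 C3 * Real.exp ((ρ + η0) * (2 * (2 * q)) - 3 * (2 * q)))
          hl hl0 le_rfl
          (fun j hj => by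
            rw [Finset.mem_sdiff] at hj
            obtain ⟨hj1, u, hu, x, τ, o, e', he', hx, hτ, ho, hW⟩ := hJ j hj.1
            refine ⟨hj1, u, hu, x, τ, o, e', he', hx, hτ, ho, ?_⟩
            simp only [mem_ofPred_eq] at hW ⊢
            intro h0
            refine hj.2 (Finset.mem_filter.2 ⟨hj.1, hj1, u, hu, x, τ, o, e', he', hx, hτ, ho, ?_⟩)
            simp only [mem_ofPred_eq]
            intro h00
            refine hW ?_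
            rw [h0, h00]
            ring)
          hYm hY1 (hy0.trans (hmono _ _ (by nlinarith))) (fun v => (hy1 v).trans (hmono _ _ (by nlinarith)))
          (fun v => (hy2 v).trans (hmono _ _ (by nlinarith)))
        have hE0 : 0 ≤ Real.sqrt (EB (Real.exp ((h + η0) * (2 * (2 * q)))) (Real.exp ((h + η0) * (2 * q))) (Real.exp ((h + η0) * (2 * (2 * q) - s1)))
          (max C2 C3 * Real.exp ((ρ + η0) * (3 * (2 * q)) - 3 * (2 * q))) (max C2 C3 * Real.exp ((ρ + η0) * (3 * (2 * q) - s0) - 3 * (2 * q)))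
          (max C2 C3 * Real.exp ((ρ + η0) * (2 * (2 * q)) - 3 * (2 * q))) (2 * q) s1 (Real.exp (-s0)) (Real.exp q)) := Real.sqrt_nonneg _
        have hS := IRM_split _ hYm hY1 J J1 hJ1s c _ _ (by positivity) (mul_nonneg (by linarith) hE0) hI1 hI2
        refine hS.trans ?_
        refine mul_le_mul_of_nonneg_right ?_ (Finset.sum_nonneg fun j _ => by positivity)
        have hA : C1 * Real.exp ((a1 + ε' / 4) * (3 * (2 * q))) * (C3 * Real.exp ((ρ + η') * (3 * (2 * q)) - 3 * (2 * q))) ≤ δ ^ 2 / 512 := by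
          refine le_trans ?_ (HN5 q e5)
          have h3 : C1 * Real.exp ((a1 + ε' / 4) * (3 * (2 * q))) * (C3 * Real.exp ((ρ + η') * (3 * (2 * q)) - 3 * (2 * q))) =
              C1 * C3 * Real.exp ((a1 + ε' / 4) * (3 * (2 * q)) + ((ρ + η') * (3 * (2 * q)) - 3 * (2 * q))) := by
            rw [Real.exp_add]; ring
          rw [h3]
          refine mul_le_mul_of_nonneg_left (Real.exp_le_exp.2 ?_) (by positivity)
          rw [ha1]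
          nlinarith
        have hB := le_trans (mul_le_mul_of_nonneg_right (le_max_left C2 C3) hE0) hNUM'
        nlinarith)
    have hm1 := IRM_mass Γ μ _ _ _ hΨm
    have hm2 : μ.real (Low Γ μ h) ≤ μ.real (one Γ (fun g => 1 - (1 - Ψ1 g) * (1 - Ψ2 g))) + 2 * e := by
      have hsub : Low Γ μ h ⊆ one Γ (fun g => 1 - (1 - Ψ1 g) * (1 - Ψ2 g)) ∪ ((Low Γ μ a1 \ one Γ Ψ1) ∪ ((Low Γ μ h \ Low Γ μ a1) \ one Γ Ψ2)) := by
        intro x hx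
        by_cases hx1 : x ∈ Low Γ μ a1
        · by_cases hx2 : x ∈ one Γ Ψ1
          · obtain ⟨g, hg, hg1⟩ := hx2
            exact Or.inl ⟨g, hg, by simp [hg1]⟩
          · exact Or.inr (Or.inl ⟨hx1, hx2⟩)
        · by_cases hx2 : x ∈ one Γ Ψ2
          · obtain ⟨g, hg, hg1⟩ := hx2
            exact Or.inl ⟨g, hg, by simp [hg1]⟩
          · exact Or.inr (Or.inr ⟨⟨hx, hx1⟩, hx2⟩)
      have h3 := (measureReal_mono (μ := μ) hsub).trans (measureReal_union_le _ _)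
      have h4 := measureReal_union_le (μ := μ) (Low Γ μ a1 \ one Γ Ψ1) ((Low Γ μ h \ Low Γ μ a1) \ one Γ Ψ2)
      linarith
    linarith
  by_contra hcon
  push Not at hcon
  obtain ⟨t, ht⟩ : ∃ t, t = μ.real (Low Γ μ h) + μ.real (Low Γ μ ρ) - 1 := ⟨_, rfl⟩
  have ht0 : 0 < t := by rw [ht]; linarith
  have h3 := key (min (t / 8) 1) (lt_min (by linarith) one_pos) (min_le_right _ _)
  have h4 : min (t / 8) 1 ≤ t / 8 := min_le_left _ _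
  linarith

theorem IRM_proof (hGLC : RS.GLC_stmt) (hHLG : HLG_stmt) (hFWD : FWD_stmt) (hBK1 : BK1_stmt) (hBK2 : BK2_stmt) (hSFP : SFP_stmt)
    (hNUM : NUM_stmt) : IRM_stmt := by
  intro Γ F r φ ν hΓ hF hr hφ hn hfin hν
  obtain ⟨μ, hμ, hfl, hmap, K, hK, H⟩ := hHLG Γ F r φ ν hΓ hF hr hφ hn hfin hν
  exact ⟨μ, hμ, hfl, hmap, IRM_core hGLC hFWD hBK1 hBK2 hSFP hNUM Γ μ K hΓ hμ hfl hK H⟩

end Pool.Agent.IR
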