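import Pool.Agent.helper52.IR.SpecB

/-!
# MP_07c750, project IR: everything for the same lift, row `ir:HLH`

Rules as in `Spec`. `GP Γ μ K` is the conclusion of HLG for a measure `μ`.
-/

open scoped MatrixGroups ContDiff Topology UpperHalfPlane ComplexConjugate ENNReal
open UpperHalfPlane MeasureTheory Filter Set

set_option autoImplicit false

namespace Pool.Agent.IR

open Pool.Agent.RS
open Pool.Agent.MS (bq BB BA SF pf)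
open Pool.Agent.EN (XG MG mkX mkM fl pr)
open Pool.Agent.ER (Low LowJ)

noncomputable section

/-- the property of the lift `μ` in HLG -/
def GP (Γ : Subgroup SL(2, ℝ)) (μ : Measure (XG Γ)) (K : ℝ) : Prop :=
  ∀ (ε C3 δ L0 εc B' l0 : ℝ) (n : ℕ) (Ψ Ψa Ψn Ψl Ψ' Ψa' Ψn' Ψl' : SL(2, ℝ) → ℝ), 0 < ε → ε ≤ 1 → 1 ≤ C3 → 0 < δ → δ ≤ (ε / 200) ^ 2 → L0 = 2 * K * (C3 * Real.exp n) / δ → εc = Real.pi / (4 * L0) → 0 < l0 →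
    SF Γ Ψ Ψa Ψn Ψl → SF Γ Ψ' Ψa' Ψn' Ψl' → (∀ g, 0 ≤ Ψ g ∧ Ψ g ≤ 1) → (∀ g, 0 ≤ Ψ' g ∧ Ψ' g ≤ 1) → (∀ g, |Ψn g| ≤ C3) → (∀ g, |Ψl g| ≤ C3 * Real.exp n) → (∀ g, |Ψn' g| ≤ B') → (∀ g, |Ψl' g| ≤ B') →
    LFC Ψ Ψ' n εc l0 (δ ^ 2 / 128) → μ.real (one Γ Ψ) + μ.real (one Γ Ψ') ≤ 1 + ε

/-- **Row HLH** (boxes, for the same lift; short-medium; from MS.BXM, CT1; compare the proof of HM1 (helper62/HF/HM1.lean) and `HLF_mono`). `a0` = the minimum of the one of BXM and `1/1600`. Given `a` and `ε ∈ (0, 1]`: `C3 ≥ 1` from BXM, `δ = (ε/200)²`, `Λ2 = 4 K C3/δ`, `C` from CT1, `Λ = max (C Λ2) (2 K C3/δ + 5)`; HC with `Λ` and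
`min ε (δ²/128)`: `n, A, A'`. `Ψ, Ψ'` from BXM for `A, A'`; `εc = π/(2 Λ2) e^(-n)`, `l0 = εc/100` (`εc ≤ 1/100`). LFC: `{v | Ψ (g' lM v) ≠ 0} ⊆ {v | g' lM v ∈ FW Γ A (16a) e^(-n)}` (the integrand is nonnegative, MonoSet), `#J ≤ C Λ2 |A'|` by CT1 with `b = 16 a`, `|j| ≤ 3/(10 εc) ≤ Λ e^n`, so LFI applies. Then
`m - ε ≤ μ (one Ψ)`, `m' - ε ≤ μ (one Ψ')`: `m + m' ≤ 1 + 3 ε`. -/
def HLH_stmt : Prop := ∀ (Γ : Subgroup SL(2, ℝ)) (μ : Measure (XG Γ)) (K : ℝ), QU.SurfaceGroup Γ → IsProbabilityMeasure μ → 1 ≤ K → GP Γ μ K →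
  ∃ a0 : ℝ, 0 < a0 ∧ ∀ a : ℝ, 0 < a → a ≤ a0 → ∀ m m' : ℝ, 0 ≤ m → m ≤ 1 → 0 ≤ m' → m' ≤ 1 → HV.HC Γ μ m m' a → m + m' ≤ 1

/-- **Row EQC** (equality; short; PURE; from MEN). By MEN `∫ max 0 ((2f - 1)(1 - f)) ≤ 0`, so almost everywhere `f ≤ 1/2` or `f = 1`; `μ {f = 1} = 1 - μ {f ≤ 1/2} ≥ 1/2`, and `1/2 = ∫ f = ∫_{f ≤ 1/2} f + μ {f = 1}`, so `μ {f = 1} = 1/2` and `f = 0` almost everywhere on `{f ≤ 1/2}`. -/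
def EQC_stmt : Prop := ∀ (X : Type) [MeasurableSpace X] (μ : Measure X) (f : X → ℝ), IsProbabilityMeasure μ → Measurable f → (∀ x, 0 ≤ f x ∧ f x ≤ 1) →
  (∀ h : ℝ, 1 / 2 < h → h < 1 → μ.real {x | f x ≤ h} + μ.real {x | f x ≤ (1 - h) * (1 + (2 * h - 1) / 200)} ≤ 1) → μ.real {x | f x ≤ 1 / 2} ≤ 1 / 2 → ∫ x, f x ∂μ ≤ 1 / 2 →
    μ.real {x | f x = 0} = 1 / 2 ∧ μ.real {x | f x = 1} = 1 / 2

end

end Pool.Agent.IR
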