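import Pool.Agent.helper62.HF.SpecW
import Pool.Agent.helper93.ER.Spec

/-!
# MP_07c750 (quantum unique ergodicity, weight 10), project IR: IMPROVED REFLECTION, rows `ir:X`

THEOREM (IR). `M = Γ \ ℍ` any closed hyperbolic surface, `φ_k` normalised eigenfunctions, eigenvalues `→ ∞`, `|φ_k|² dz → ν` weakly. There is a flow invariant lift `μ` of `ν` whose distribution function `F(a) = μ {h ≤ a}` of the local entropy satisfies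
  `F(h) + F((1 - h)(1 + (2h - 1)/200)) ≤ 1` for every `1/2 < h < 1`,
strictly better than the reflection `F(h) + F(1 - h) ≤ 1` (EntropyReflection, project CR), which is sharp in all linear models (cat maps, two time states). NEW INGREDIENT: the stable horocycle of `g lM w` is the image of the one of `g` under the PROJECTIVE map `M_w x = x/(1 - w x)`; its second derivative
gives to different parts of the set of the pasts different dilations, so their exponential sums decorrelate for most `w`. The exceptional `w` have a small dimension and are not seen by the components of entropy `> 1/2`.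

NOTATION. `μ0 = 2h - 1`, `β = (2h - 1)(1 - h)/200`, `ρ = 1 - h + β`, `a1 = 1 - ρ - ε'` (`> 1/2`), `p = 2q` large, `s0 = ⌊μ0 p/16⌋`, `s1 = ⌊μ0 p/4⌋`, times `p`, `2p`, `n = 3p`. `Y` (future, at the time `log r`) = `Low ρ`. Past: `Low h = Low a1 ∪ (Low h \ Low a1)`: the first part by counting (`a1 + ρ < 1`), the second by Lemma AL.
Points `g nM x` of the stable horocycle whose past is covered by boxes: words of length `2p` over `[-2p, 0]` give the blocks `I` (cells of width `e^(-2p)` in `x`, at most `e^((h + η) 2p)`, at most `e^((h+η)(2p - s1))` in an interval of length `e^(-s1)`), words of length `p` over `[-3p, -2p]` the cells of width `e^(-3p)` in a block (at most `e^((h+η)p)`).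
`w` is bad for the structure of `g` if `∫ (Σ_I |ψ_I(ω_I(w) u)|²)² du` is too large near `w`; the bad `w` are covered by `e^(p/2)` intervals of length `e^(-p)` (average over `w`), so the bad points of `Γ \ G` are covered by `C e^(p/2)` forward boxes of length `p`, which have small mass outside of `Low a1`, `a1 > 1/2`.

RULES. Row `ir:XXX`: file `Pool/Agent/<seat>/IR/XXX.lean`, `import Pool.Agent.helper52.IR.Spec` (and what you need, e.g. proofs of quoted rows), `set_option autoImplicit false`, namespace `Pool.Agent.IR`, `open Pool.Agent.RS`, auxiliary lemmas prefixed `XXX_`, theorem `XXX_proof (h : YYY_stmt) .. : XXX_stmt` with the rows listed in `from` as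
hypotheses (rows of other projects as `(h : RS.GLC_stmt)`, `(h : MS.BXM_stmt)`, `(h : HV.OPB_stmt)` .. or their proved versions `A_XXX`). No straight double quotes, no `convert`, `congr!`, `native_decide`. A false or doubtful statement: message to helper52 at once.
-/

open scoped MatrixGroups ContDiff Topology UpperHalfPlane ComplexConjugate
open UpperHalfPlane MeasureTheory Filter Set

set_option autoImplicit false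

namespace Pool.Agent.IR

open Pool.Agent.RS
open Pool.Agent.MS (bq BB BA SF pf)
open Pool.Agent.HV (FW)
open Pool.Agent.EN (XG MG mkX mkM fl pr)
open Pool.Agent.ER (Low LowJ)

noncomputable section

/-! ## A. Exponential sums -/

/-- `ψ_P(s) = Σ_(p ∈ P) e^(i p s)` -/
def ps (P : Finset ℤ) (s : ℝ) : ℂ := ∑ p ∈ P, Complex.exp (((p * s : ℝ) : ℂ) * Complex.I)

/-- the derivative of `x ↦ x/(1 - w x)` -/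
def om (w x : ℝ) : ℝ := 1 / (1 - w * x) ^ 2

/-- `G_w(u) = Σ_(i ∈ S) |ψ_(P i)(ω_i(w) u)|²` -/
def GG (S : Finset ℤ) (P : ℤ → Finset ℤ) (X : ℤ → ℝ) (w u : ℝ) : ℝ := ∑ i ∈ S, ‖ps (P i) (om w (X i) * u)‖ ^ 2

/-- the structure: at most `M` blocks, at most `F` elements in each, at most `M1` blocks at distance `< ϑ` from a given one -/
structure STR (S : Finset ℤ) (P : ℤ → Finset ℤ) (X : ℤ → ℝ) (M M1 F ϑ : ℝ) : Prop where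
  m0 : (S.card : ℝ) ≤ M
  f0 : ∀ i ∈ S, ((P i).card : ℝ) ≤ F
  x0 : ∀ i ∈ S, |X i| ≤ 3
  m1 : ∀ i ∈ S, ((S.filter (fun i' => |X i' - X i| < ϑ)).card : ℝ) ≤ M1
  n1 : 0 ≤ M1
  n2 : 0 ≤ F

/-- **Row BLK** (medium; pure). Let `S = Σ_j a_j e_j 1_Y`; by duality (`∫_Y |S|² = Σ a_j conj Ŝ(ξ_j)`, `ξ_j = π j/2`, `Ŝ(ξ) = ∫_Y S(v) e^(-i ξ v) dv`) it is enough that `Σ_(j ∈ J) |f̂(ξ_j)|² ≤ Q ∫_Y |f|²` for every bounded measurable `f` on `Y`. `|G(ξ_j)|² ≤ 2 ∫_(|ξ - ξ_j| ≤ 1/2) (|G|² + |G'|²)` for `G = f̂` (`C¹`; `G' = ` the transform of `-i v f`,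
`|v| ≤ 1`). Assign every `j ∈ J` to one block `i ∈ S`; the intervals of different `j` are disjoint (`π/2 > 1`) and those of the block `i` are in `E_i = ∪_(q ∈ P i) [c_i + s_i q, c_i + s_i (q+1)]`. `∫_(E_i) |f̂|² = ∫∫ f(v) conj f(v') K_i(v' - v) ≤ ‖f‖² (∫∫_(Y×Y) |K_i(v - v')|²)^(1/2)`, `K_i(θ) = ∫_(E_i) e^(iξθ) dξ`
(the intervals of `E_i` overlap in points only), `|K_i(θ)| ≤ s_i |ψ_(P i)(s_i θ)|`. Constant `2 · 2 · 8 = 32`. -/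
def BLK_stmt : Prop := ∀ (S : Finset ℤ) (Jb P : ℤ → Finset ℤ) (c s : ℤ → ℝ) (Y : Set ℝ) (J : Finset ℤ) (a : ℤ → ℂ), MeasurableSet Y → Y ⊆ Icc 0 1 → (∀ i ∈ S, 0 < s i ∧ s i ≤ 8) →
  (∀ i ∈ S, ∀ j ∈ Jb i, ∀ ξ : ℝ, |ξ - Real.pi * j / 2| ≤ 1 / 2 → ∃ q ∈ P i, c i + s i * q ≤ ξ ∧ ξ ≤ c i + s i * (q + 1)) → (∀ j ∈ J, ∃ i ∈ S, j ∈ Jb i) →
    ∫ v in Y, ‖∑ j ∈ J, a j * Complex.exp (((Real.pi * j * v / 2 : ℝ) : ℂ) * Complex.I)‖ ^ 2 ≤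
      32 * (∑ i ∈ S, Real.sqrt (∫ v in Y, ∫ v' in Y, ‖ps (P i) (s i * (v - v'))‖ ^ 2)) * ∑ j ∈ J, ‖a j‖ ^ 2

/-- **Row PAV** (DECORRELATION; medium; pure). `|w x| ≤ 3/16`, so `om` is between `0.7` and `1.6`. For fixed `w` substitute `s = om w x u` (`u = s/om`): `≤ (1/0.7) ∫_w ∫_(θ0/2 ≤ |s| ≤ 13) |ψ(s)|² |ψ'(q(w) s)|²`, `q(w) = om w x'/om w x = ((1 - w x)/(1 - w x'))²`,
`q'(w) = 2 (1 - w x)(x' - x)/(1 - w x')³` has constant sign and `|q'| ≥ |x - x'|/2`. For fixed `s`: `∫_w |ψ'(q(w) s)|² dw ≤ (2/(|x - x'| |s|)) ∫_(|t| ≤ 40) |ψ'(t)|² dt ≤ C #P'/(|x - x'| θ0)` (substitution `t = q(w) s`, injective; `∫_(|t| ≤ 14π) |ψ'|² = 28π #P'`), and `∫_(|s| ≤ 13) |ψ|² ≤ C #P`. -/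
def PAV_stmt : Prop := ∃ C : ℝ, 0 < C ∧ ∀ (P P' : Finset ℤ) (x x' θ0 : ℝ), |x| ≤ 3 → |x'| ≤ 3 → x ≠ x' → 0 < θ0 → θ0 ≤ 1 →
  ∫ w in Icc (-(1 / 16) : ℝ) (1 / 16), ∫ u in {u : ℝ | θ0 / 2 ≤ |u| ∧ |u| ≤ 8}, ‖ps P (om w x * u)‖ ^ 2 * ‖ps P' (om w x' * u)‖ ^ 2 ≤ C * (P.card * P'.card) / (|x - x'| * θ0)

/-- **Row NPR** (near pairs; short; pure). `|ψ_P| ≤ #P`; `∫_(|u| ≤ 8) |ψ_P'(om u)|² du ≤ (1/0.7) ∫_(|t| ≤ 13) |ψ_P'|² ≤ C #P'`. -/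
def NPR_stmt : Prop := ∃ C : ℝ, 0 < C ∧ ∀ (P P' : Finset ℤ) (x x' w : ℝ), |x| ≤ 3 → |x'| ≤ 3 → |w| ≤ 1 / 16 →
  ∫ u in {u : ℝ | |u| ≤ 8}, ‖ps P (om w x * u)‖ ^ 2 * ‖ps P' (om w x' * u)‖ ^ 2 ≤ C * ((P.card : ℝ) ^ 2 * P'.card)

/-- **Row CEL** (few bad cells; short-medium; from PAV, NPR). `GG² = Σ_(i, i')`. Near pairs (`|X i - X i'| < ϑ`, this contains `i = i'`): at most `M M1` pairs, each `≤ C F³`: at most `C M M1 F³/L` on a cell. Far pairs: `∫_(|w| ≤ 1/16) ∫_u ≤ T := C M² F²/(ϑ θ0)` (PAV; `|X i - X i'| ≥ ϑ`); `Q` = the cells on which the integral of the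
far pairs is `> T/R`; different cells overlap in points only, so `#Q T/R < T` (if `Q` is not empty). Outside of `Q` it is `≤ T/R = (C/L) M² F² L/(ϑ θ0 R)`. -/
def CEL_stmt : Prop := ∃ C : ℝ, 0 < C ∧ ∀ (S : Finset ℤ) (P : ℤ → Finset ℤ) (X : ℤ → ℝ) (M M1 F ϑ θ0 R : ℝ) (L : ℕ), STR S P X M M1 F ϑ → 0 < ϑ → ϑ ≤ 1 → 0 < θ0 → θ0 ≤ 1 → 1 ≤ R → 1 ≤ L →
  ∃ Q : Finset ℤ, (Q.card : ℝ) ≤ R ∧ ∀ k : ℤ, 16 * (|k| + 1) ≤ L → k ∉ Q →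
    ∫ w in Icc ((k : ℝ) / L) ((k + 1) / L), ∫ u in {u : ℝ | θ0 / 2 ≤ |u| ∧ |u| ≤ 8}, GG S P X w u ^ 2 ≤ C / L * (M ^ 2 * F ^ 2 * L / (θ0 * ϑ * R) + M * M1 * F ^ 3)

/-- **Row YAV** (average over the dilation; short-medium; pure). Fix `v, v'`, `θ = v - v'`, `θ0 ≤ |θ| ≤ 1`: substitution `u = κ' θ`: `∫_(κ') H(κ' θ) dκ' = (1/|θ|) ∫ H(u) 1{u between κ θ and κ(1 + 1/L) θ} du ≤ (1/θ0) ∫_(θ0/2 ≤ |u| ≤ 4) H(u) 1{|u - κ θ| ≤ 2/L} du`. Integrate over `v' ∈ Y` (Tonelli): `|u - κ(v - v')| ≤ 2/L` implies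
`|v' - (v - u/κ)| ≤ 2/(κ L) ≤ 4/L`: measure at most `y2`. Then over `v`: `vol Y ≤ y0`. -/
def YAV_stmt : Prop := ∀ (H : ℝ → ℝ) (Y : Set ℝ) (κ θ0 y0 y2 : ℝ) (L : ℕ), Continuous H → (∀ u, 0 ≤ H u) → MeasurableSet Y → Y ⊆ Icc 0 1 → 1 / 2 ≤ κ → κ ≤ 2 → 0 < θ0 → θ0 ≤ 1 → 1 ≤ L →
  volume.real Y ≤ y0 → (∀ v : ℝ, volume.real (Y ∩ Icc (v - 4 / L) (v + 4 / L)) ≤ y2) →
    ∫ κ' in Icc κ (κ * (1 + 1 / L)), ∫ v in Y, ∫ v' in Y ∩ {v' | θ0 ≤ |v - v'|}, H (κ' * (v - v')) ≤ y0 * y2 / θ0 * ∫ u in {u : ℝ | θ0 / 2 ≤ |u| ∧ |u| ≤ 8}, H u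

/-- **Row ALM** (LEMMA AL; medium; from CEL, YAV). `Q` from CEL. `b_i = ∫∫_(Y×Y) |ψ_i(κ' om(w', X i)(v - v'))|²`; `(Σ √b_i)² ≤ M Σ b_i`, `Σ b_i = ∫∫_(Y×Y) GG(w', κ'(v - v'))`. Part `|v - v'| < θ0`: `GG ≤ M F²`, measure `≤ y0 y1`. Part `|v - v'| ≥ θ0`: `≤ y0 (∫∫ GG²)^(1/2)` (Cauchy-Schwarz, `vol(Y × Y) ≤ y0²`).
Integrate `∫∫_(|v - v'| ≥ θ0) GG(w', κ'(v - v'))²` over `w'` in the cell of `w` (measure `1/L`) and `κ' ∈ [κ, κ(1 + 1/L)]` (measure `≥ 1/(2L)`): YAV with `H = GG(w', ·)²` for every `w'`, then CEL: `≤ (y0 y2/θ0)(C/L) Φ`, `Φ = M²F²L/(θ0ϑR) + M M1 F³`. So for some `(w', κ')` it is `≤ 2 C y0 y2 (L/θ0) Φ`. -/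
def ALM_stmt : Prop := ∃ C : ℝ, 0 < C ∧ ∀ (S : Finset ℤ) (P : ℤ → Finset ℤ) (X : ℤ → ℝ) (M M1 F ϑ θ0 R : ℝ) (L : ℕ), STR S P X M M1 F ϑ → 0 < ϑ → ϑ ≤ 1 → 0 < θ0 → θ0 ≤ 1 → 1 ≤ R → 1 ≤ L →
  ∃ Q : Finset ℤ, (Q.card : ℝ) ≤ R ∧ ∀ (k : ℤ) (w κ : ℝ) (Y : Set ℝ) (y0 y1 y2 : ℝ), 16 * (|k| + 1) ≤ L → k ∉ Q → (k : ℝ) / L ≤ w → w ≤ (k + 1) / L → 1 / 2 ≤ κ → κ ≤ 2 →
    MeasurableSet Y → Y ⊆ Icc 0 1 → volume.real Y ≤ y0 → (∀ v : ℝ, volume.real (Y ∩ Icc (v - θ0) (v + θ0)) ≤ y1) → (∀ v : ℝ, volume.real (Y ∩ Icc (v - 4 / L) (v + 4 / L)) ≤ y2) →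
    ∃ w' κ' : ℝ, |w' - w| ≤ 1 / L ∧ |w'| ≤ 1 / 16 ∧ κ ≤ κ' ∧ κ' ≤ κ * (1 + 1 / L) ∧
      (∑ i ∈ S, Real.sqrt (∫ v in Y, ∫ v' in Y, ‖ps (P i) (κ' * om w' (X i) * (v - v'))‖ ^ 2)) ^ 2 ≤
        M * (M * F ^ 2 * (y0 * y1) + C * (y0 * Real.sqrt (y0 * y2 * (L / θ0) * (M ^ 2 * F ^ 2 * L / (θ0 * ϑ * R) + M * M1 * F ^ 3))))

/-! ## B. Stable and unstable arcs -/

/-- **Row NET** (short; a compact set meets every orbit (QU.DOB, EN rows), the open sets `{y lM w aM τ nM x | |w|, |τ|, |x| < b}` cover it). -/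
def NET_stmt : Prop := ∀ (Γ : Subgroup SL(2, ℝ)) (b : ℝ), QU.SurfaceGroup Γ → 0 < b → ∃ Z : Finset SL(2, ℝ), ∀ g : SL(2, ℝ), ∃ y ∈ Z, ∃ (γ : Γ) (w τ x : ℝ), |w| ≤ b ∧ |τ| ≤ b ∧ |x| ≤ b ∧ (γ : SL(2, ℝ)) * g = y * lM w * aM τ * nM x

/-- **Row CTB** (counting on a stable arc; medium; compare helper62/HF/CTG.lean; from RS.GLC, QU.DOB or CTG). `h = y nM X aM t lM u`, `h aM (-k) ∈ FW Γ A b e^(-k)` means `q = y'⁻¹ γ h aM(-k)` with `bq b b (b e^(-k)) q`, `y' ∈ A`; so `(y' aM k)⁻¹ γ h = aM(-k) q aM k` satisfies `bq b (b e^(-k)) b`. Two elements with the same `y'`, `γ`: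
`q⁻¹ q' = aM k [lM(-u) aM(-t) nM(X' - X) aM t' lM u'] aM(-k)` has the upper right entry `e^k e^(-(t+t')/2) (X' - X)`, at most `3b` in absolute value: `|X' - X| ≤ 3 b e^(3/2) e^(-k) < e^(-k)/2`: at most `2` cells. The number of `γ` for fixed `y'`: `(y' aM k)⁻¹ γ' γ⁻¹ (y' aM k) = Q' (h'⁻¹ h) Q⁻¹` with bounded `Q, Q'` and bounded
`h'⁻¹ h = lM(-u') aM(-t') nM(X - X') aM t lM u`: at most `N(Γ)`. So `C = 2 N` (times `2` for the sign `e`). -/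
def CTB_stmt : Prop := ∀ Γ : Subgroup SL(2, ℝ), QU.SurfaceGroup Γ → ∃ C : ℝ, 0 < C ∧ ∀ (b k : ℝ) (A : Finset SL(2, ℝ)) (y : SL(2, ℝ)) (T : Finset ℤ), 0 < b → b ≤ 1 / 100 → 0 ≤ k →
  (∀ m ∈ T, ∃ (X t u : ℝ) (e : SL(2, ℝ)), (e = 1 ∨ e = -1) ∧ |X| ≤ 4 ∧ |t| ≤ 3 / 2 ∧ |u| ≤ 1 / 4 ∧ m ≤ X * Real.exp k ∧ X * Real.exp k < m + 1 ∧ e * y * nM X * aM t * lM u * aM (-k) ∈ FW Γ A b (Real.exp (-k))) →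
    (T.card : ℝ) ≤ C * A.card

/-- **Row CTF** (counting on an unstable arc; short-medium; as CTB: `q⁻¹ q' = lM (v' - v)`, so `|v' - v| ≤ 3 b e^(-k)`). -/
def CTF_stmt : Prop := ∀ Γ : Subgroup SL(2, ℝ), QU.SurfaceGroup Γ → ∃ C : ℝ, 0 < C ∧ ∀ (b k : ℝ) (A : Finset SL(2, ℝ)) (g : SL(2, ℝ)) (T : Finset ℤ), 0 < b → b ≤ 1 / 100 → 0 ≤ k →
  (∀ m ∈ T, ∃ v : ℝ, |v| ≤ 4 ∧ m ≤ v * Real.exp k ∧ v * Real.exp k < m + 1 ∧ g * lM v ∈ FW Γ A b (Real.exp (-k))) → (T.card : ℝ) ≤ C * A.card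

/-- **Row YVO** (length of the leaf set; short; from CTF, RS.GLC). With `v = v0 + e^(-σ) z`, `|z| ≤ 4`: `g lM v aM σ = (g lM v0 aM σ) lM z`; the `z` are in at most `C |A|` cells of length `e^(-k)`. -/
def YVO_stmt : Prop := ∀ Γ : Subgroup SL(2, ℝ), QU.SurfaceGroup Γ → ∃ C : ℝ, 0 < C ∧ ∀ (b k σ v0 : ℝ) (A : Finset SL(2, ℝ)) (g : SL(2, ℝ)), 0 < b → b ≤ 1 / 100 → 0 ≤ k →
  volume.real {v : ℝ | |v - v0| ≤ 4 * Real.exp (-σ) ∧ g * lM v * aM σ ∈ FW Γ A b (Real.exp (-k))} ≤ C * A.card * Real.exp (-(σ + k))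

/-- the point `y nM X` has (up to a small displacement along the flow and the unstable direction) its past in the boxes -/
def occ (W : Set SL(2, ℝ)) (y : SL(2, ℝ)) (X : ℝ) : Prop := ∃ (t u : ℝ) (e : SL(2, ℝ)), (e = 1 ∨ e = -1) ∧ |t| ≤ 3 / 2 ∧ |u| ≤ 1 / 4 ∧ e * y * nM X * aM t * lM u ∈ W

/-- the points with the past over `[-3p, -2p]` in the boxes `Ap`, over `[-2p, 0]` in the boxes `At`, over `[-2p, -s1]` in the boxes `As` -/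
def WS (Γ : Subgroup SL(2, ℝ)) (Ap At As : Finset SL(2, ℝ)) (b : ℝ) (p s1 : ℕ) : Set SL(2, ℝ) :=
  {h | h * aM (-(3 * p)) ∈ FW Γ Ap b (Real.exp (-p)) ∧ h * aM (-(2 * p)) ∈ FW Γ At b (Real.exp (-(2 * p))) ∧ h * aM (-(2 * p)) ∈ FW Γ As b (Real.exp (-(2 * p - s1)))}

/-- **Row CNT** (the structure of a stable arc; short-medium; from CTB, RS.GLC). Block of `X`: `I = ⌊X e^(2p)⌋`, `x_I = I e^(-2p)`; cell of `X` in the block: `q = ⌊(X - x_I)/ε2⌋`, `ε2 = e^(-3p)/Λ2`. `S` = the blocks of the occupied `X`, `|X| ≤ 2`; `P I` = the `q + i`, `|i| ≤ 400`, `q` the cell of an occupied `X` of the block. `#S ≤ C |At|`: CTB with `k = 2p`.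
`#P I`: `y' = y nM x_I aM(-2p)`, `X = x_I + e^(-2p) z`, `0 ≤ z < 1`: `y nM X aM t lM u aM(-3p) = y' nM z aM t lM(e^(-2p) u) aM(-p)`: CTB with `k = p`: at most `C |Ap|` cells of length `e^(-p)` in `z`, i.e. `e^(-3p) = Λ2 ε2` in `X`: each contains at most `Λ2 + 2` values of `q`. Neighbours: `y'' = y nM x_I aM(-s1)`, `X' = x_I + e^(-s1) z`, `|z| ≤ 2`:
`y nM X' aM t lM u aM(-2p) = y'' nM z aM t lM(e^(-s1) u) aM(-(2p - s1))`: CTB with `k = 2p - s1`, cells of length `e^(-2p)` in `X'`. -/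
def CNT_stmt : Prop := ∀ Γ : Subgroup SL(2, ℝ), QU.SurfaceGroup Γ → ∃ C : ℝ, 1 ≤ C ∧ ∀ (b Λ2 ε2 : ℝ) (p s1 : ℕ) (Ap At As : Finset SL(2, ℝ)) (y : SL(2, ℝ)), 0 < b → b ≤ 1 / 100 → 1 ≤ Λ2 → ε2 = Real.exp (-(3 * p)) / Λ2 → s1 ≤ 2 * p →
  ∃ (S : Finset ℤ) (P : ℤ → Finset ℤ), STR S P (fun I => I * Real.exp (-(2 * p))) (C * At.card) (C * As.card) (C * Λ2 * Ap.card) (Real.exp (-s1)) ∧
    ∀ X : ℝ, |X| ≤ 2 → occ (WS Γ Ap At As b p s1) y X → ⌊X * Real.exp (2 * p)⌋ ∈ S ∧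
      ∀ i : ℤ, |i| ≤ 400 → ⌊(X - ⌊X * Real.exp (2 * p)⌋ * Real.exp (-(2 * p))) / ε2⌋ + i ∈ P ⌊X * Real.exp (2 * p)⌋

/-- **Row GEO** (transfer of the structure; medium; pure matrices, RS.GLC). `z_j = j εc + x_j`. `g lM(l u_0) = e_0 h0 lM(-ω_0) aM(-τ_0) nM(-z_0)`, `h0 = γ⁻¹ y lM w aM τ1 nM x1`, so `h_j = e_j g lM(l u_j) nM z_j aM τ_j lM ω_j = e_j e_0 γ⁻¹ y Q`, `Q = lM w aM τ1 nM x1 lM(-ω_0) aM(-τ_0) nM(-z_0) lM(l (u_j - u_0)) nM z_j aM τ_j lM ω_j`. `Q = nM X aM t lM u` with `X = Q01/Q11`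
`= Q(0)` (real Moebius action), `e^(-t/2) = Q11`, `u = Q10/Q11`. `lM ω (x) = x/(1 + ω x)`, `nM z (x) = x + z`, `aM τ (x) = e^τ x`: all `lM` except the first one change the result by at most `10 l0`, so `X = ζ/(1 + w ζ)`, i.e. `X/(1 - w X) = ζ = e^τ1 x1 + e^(τ1 - τ_0)(z_j - z_0) + O(10 l0)`. `λ = e^(τ1 - τ_0)`,
`c0 = e^τ1 x1 - λ z_0`: `|ζ - (c0 + λ j εc)| ≤ 2 · 4 εc + 10 l0 ≤ 20 εc`. Sizes: `|z_j - z_0| ≤ 0.7`, `λ ≤ 1.9`, `|ζ| ≤ 1.4`, `|X| ≤ 1.5`, `|t| ≤ 1.3`, `|u| ≤ 0.1`. -/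
def GEO_stmt : Prop := ∀ (Γ : Subgroup SL(2, ℝ)) (W : Set SL(2, ℝ)) (εc l l0 w τ1 x1 : ℝ) (g y h0 : SL(2, ℝ)) (γ : Γ) (J : Finset ℤ) (j0 : ℤ), (∀ (γ : Γ) (h : SL(2, ℝ)), (γ : SL(2, ℝ)) * h ∈ W ↔ h ∈ W) → 0 < εc → εc ≤ 1 / 100 → 0 ≤ l → l ≤ l0 → l0 ≤ εc / 100 →
  |w| ≤ 1 / 100 → |τ1| ≤ 1 / 100 → |x1| ≤ 1 / 100 → (γ : SL(2, ℝ)) * h0 = y * lM w * aM τ1 * nM x1 → |(j0 : ℝ) * εc| ≤ 3 / 10 →
  (∃ u ∈ Icc (0 : ℝ) 1, ∃ (x τ o : ℝ) (e : SL(2, ℝ)), (e = 1 ∨ e = -1) ∧ |x| ≤ 4 * εc ∧ |τ| ≤ 3 / 5 ∧ |o| ≤ l0 ∧ h0 = e * g * lM (l * u) * nM (j0 * εc + x) * aM τ * lM o) →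
  (∀ j ∈ J, |(j : ℝ) * εc| ≤ 3 / 10 ∧ ∃ u ∈ Icc (0 : ℝ) 1, ∃ (x τ o : ℝ) (e : SL(2, ℝ)), (e = 1 ∨ e = -1) ∧ |x| ≤ 4 * εc ∧ |τ| ≤ 3 / 5 ∧ |o| ≤ l0 ∧ e * g * lM (l * u) * nM (j * εc + x) * aM τ * lM o ∈ W) →
    ∃ c0 lam : ℝ, 1 / 2 ≤ lam ∧ lam ≤ 2 ∧ ∀ j ∈ J, ∃ X : ℝ, |X| ≤ 2 ∧ occ W y X ∧ |X / (1 - w * X) - (c0 + lam * (j * εc))| ≤ 20 * εc

/-- **Row TRF** (linearisation in a block; medium; pure). `κ = 1/λ`, `ε2 = 2 εc/π`, `x_I` = the left end of the block, `q = ⌊(X - x_I)/ε2⌋`, `0 ≤ q ≤ L` (`L ε2 ≥ e^(-2p)`). `c_I = (κ/ε2)(x_I/(1 - w x_I) - c0)`. `π j/2 = (κ/ε2) λ j εc = (κ/ε2)(X/(1 - wX) - c0) + O(64)`, `X/(1 - wX) = x_I/(1 - w x_I) + om w x_I (X - x_I) + O(e^(-4p))` and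
`e^(-4p) ≤ ε2`; `|om w' x - om w x| ≤ 10/L`, `|κ' - κ| ≤ 2/L`. So `|ξ - (c_I + κ' om w' x_I q)| ≤ 110` and `κ' om w' x_I ≥ 0.35`: there is `i`, `|i| ≤ 400`. -/
def TRF_stmt : Prop := ∀ (εc ε2 w w' κ' c0 lam X : ℝ) (p L : ℕ) (j : ℤ), 0 < εc → ε2 = 2 * εc / Real.pi → |w| ≤ 1 / 16 → |w'| ≤ 1 / 16 → 1 ≤ L → |w' - w| ≤ 1 / L → 1 / 2 ≤ lam → lam ≤ 2 → 1 / lam ≤ κ' → κ' ≤ 1 / lam * (1 + 1 / L) → |X| ≤ 2 →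
  Real.exp (-(4 * p)) ≤ ε2 → Real.exp (-(2 * p)) ≤ L * ε2 → |X / (1 - w * X) - (c0 + lam * (j * εc))| ≤ 20 * εc →
    ∀ ξ : ℝ, |ξ - Real.pi * j / 2| ≤ 1 / 2 → ∃ i : ℤ, |i| ≤ 400 ∧
      1 / lam / ε2 * (⌊X * Real.exp (2 * p)⌋ * Real.exp (-(2 * p)) / (1 - w * (⌊X * Real.exp (2 * p)⌋ * Real.exp (-(2 * p)))) - c0) +
          κ' * om w' (⌊X * Real.exp (2 * p)⌋ * Real.exp (-(2 * p))) * ((⌊(X - ⌊X * Real.exp (2 * p)⌋ * Real.exp (-(2 * p))) / ε2⌋ + i : ℤ) : ℝ) ≤ ξ ∧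
      ξ ≤ 1 / lam / ε2 * (⌊X * Real.exp (2 * p)⌋ * Real.exp (-(2 * p)) / (1 - w * (⌊X * Real.exp (2 * p)⌋ * Real.exp (-(2 * p)))) - c0) +
          κ' * om w' (⌊X * Real.exp (2 * p)⌋ * Real.exp (-(2 * p))) * (((⌊(X - ⌊X * Real.exp (2 * p)⌋ * Real.exp (-(2 * p))) / ε2⌋ + i : ℤ) : ℝ) + 1)

/-- the energy bound of Lemma AL for `nt` blocks, `np` cells in a block, `ns` neighbours -/
def EB (nt np ns y0 y1 y2 p s1 θ0 R : ℝ) : ℝ :=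
  nt * (nt * np ^ 2 * (y0 * y1) + y0 * Real.sqrt (y0 * y2 * (Real.exp p / θ0) * (nt ^ 2 * np ^ 2 * Real.exp (p + s1) / (θ0 * R) + nt * ns * np ^ 3)))

/-- **Row BDS** (the bad set; short-medium; from NET, CNT, ALM). `b = 16 a`. `Z` from NET for `a/8`; for `y ∈ Z`: `S`, `P` from CNT, `Q_y` from ALM with `L` (`⌈(Λ2 + 2/a) e^p⌉₊ = L`), `ϑ = e^(-s1)`. `Ab` = the `y lM (k/L)`, `y ∈ Z`, `k ∈ Q_y`: at most `|Z| R`. If `h ∉ FW Γ Ab a e^(-p)`: `γ h = y lM w aM τ nM x` (NET), `k = ⌊w L⌋`;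
`(y lM (k/L))⁻¹ γ h = lM (w - k/L) aM τ nM x` satisfies `bq a a (a e^(-p))` (`1/L ≤ (a/2) e^(-p)`, `|τ|, |x| ≤ a/8`), so `k ∉ Q_y`. `16 (|k| + 1) ≤ L` since `|w| ≤ a/8` and `L` is large. The conclusion of ALM for `κ = 1/λ`, with `M = C |At|`, `M1 = C |As|`, `F = C Λ2 |Ap|`, `L ≤ (Λ2 + 2/a + 1) e^p`: the bound is `≤ C' EB`. -/
def BDS_stmt : Prop := ∀ Γ : Subgroup SL(2, ℝ), QU.SurfaceGroup Γ → ∀ a Λ2 : ℝ, 0 < a → a ≤ 1 / 1600 → 1 ≤ Λ2 → ∃ C : ℝ, 1 ≤ C ∧ ∀ (p s1 L : ℕ) (ε2 θ0 R : ℝ) (Ap At As : Finset SL(2, ℝ)), L = ⌈(Λ2 + 2 / a) * Real.exp p⌉₊ → 100 ≤ L → ε2 = Real.exp (-(3 * p)) / Λ2 →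
  s1 ≤ 2 * p → 0 < θ0 → θ0 ≤ 1 → 1 ≤ R → ∃ Ab : Finset SL(2, ℝ), (Ab.card : ℝ) ≤ C * R ∧ ∀ h : SL(2, ℝ), h ∉ FW Γ Ab a (Real.exp (-p)) →
    ∃ (y : SL(2, ℝ)) (γ : Γ) (w τ x : ℝ) (S : Finset ℤ) (P : ℤ → Finset ℤ), |w| ≤ 1 / 100 ∧ |τ| ≤ 1 / 100 ∧ |x| ≤ 1 / 100 ∧ (γ : SL(2, ℝ)) * h = y * lM w * aM τ * nM x ∧
      (∀ X : ℝ, |X| ≤ 2 → occ (WS Γ Ap At As (16 * a) p s1) y X → ⌊X * Real.exp (2 * p)⌋ ∈ S ∧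
        ∀ i : ℤ, |i| ≤ 400 → ⌊(X - ⌊X * Real.exp (2 * p)⌋ * Real.exp (-(2 * p))) / ε2⌋ + i ∈ P ⌊X * Real.exp (2 * p)⌋) ∧ (∀ I ∈ S, |(I : ℝ) * Real.exp (-(2 * p))| ≤ 3) ∧
      ∀ (κ : ℝ) (Y : Set ℝ) (y0 y1 y2 : ℝ), 1 / 2 ≤ κ → κ ≤ 2 → MeasurableSet Y → Y ⊆ Icc 0 1 → volume.real Y ≤ y0 → (∀ v : ℝ, volume.real (Y ∩ Icc (v - θ0) (v + θ0)) ≤ y1) →
        (∀ v : ℝ, volume.real (Y ∩ Icc (v - 4 * Real.exp (-p)) (v + 4 * Real.exp (-p))) ≤ y2) →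
        ∃ w' κ' : ℝ, |w' - w| ≤ 1 / L ∧ |w'| ≤ 1 / 16 ∧ κ ≤ κ' ∧ κ' ≤ κ * (1 + 1 / L) ∧
          (∑ I ∈ S, Real.sqrt (∫ v in Y, ∫ v' in Y, ‖ps (P I) (κ' * om w' (I * Real.exp (-(2 * p))) * (v - v'))‖ ^ 2)) ^ 2 ≤ C * EB At.card Ap.card As.card y0 y1 y2 p s1 θ0 R

/-- the condition on the frequencies `j` in the operator bound: near `g lM(l u) nM(j εc)` there is a point of `W` -/
def JC (W : Set SL(2, ℝ)) (εc l l0 : ℝ) (g : SL(2, ℝ)) (j : ℤ) : Prop := |(j : ℝ) * εc| ≤ 3 / 10 ∧ ∃ u ∈ Icc (0 : ℝ) 1, ∃ (x τ o : ℝ) (e : SL(2, ℝ)), (e = 1 ∨ e = -1) ∧ |x| ≤ 4 * εc ∧ |τ| ≤ 3 / 5 ∧ |o| ≤ l0 ∧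
  e * g * lM (l * u) * nM (j * εc + x) * aM τ * lM o ∈ W

/-- **Row LFX** (the leaf inequality for good points; medium; from BDS, GEO, TRF, BLK). `p0` so large that `100 ≤ L`, `e^(-4p) ≤ ε2`, `εc ≤ 1/100`. If `J` is empty: trivial. Otherwise `h0` = the point of `j0 ∈ J`: not in `FW Ab`, so `y, w, S, P` from BDS. GEO with `W = WS` (`Γ`-invariant): `c0`, `λ`, and `X_j`, `j ∈ J`. `κ = 1/λ`; `w', κ'` from BDS. TRF: for `j` with the block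
`I = ⌊X_j e^(2p)⌋ ∈ S` the interval around `π j/2` is in `∪_(q ∈ P I) c_I + s_I [q, q+1]`, `s_I = κ' om w' x_I ≤ 8`. BLK with `Jb I` = the `j ∈ J` of the block `I`. The sum over `I` is `≤ √(C EB)`. -/
def LFX_stmt : Prop := ∀ Γ : Subgroup SL(2, ℝ), QU.SurfaceGroup Γ → ∀ a Λ2 : ℝ, 0 < a → a ≤ 1 / 1600 → 1 ≤ Λ2 → ∃ (C : ℝ) (p0 : ℕ), 1 ≤ C ∧ ∀ (p s1 : ℕ) (εc θ0 R : ℝ) (Ap At As : Finset SL(2, ℝ)), p0 ≤ p → εc = Real.pi / (2 * Λ2) * Real.exp (-(3 * p)) →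
  s1 ≤ 2 * p → 0 < θ0 → θ0 ≤ 1 → 1 ≤ R → ∃ Ab : Finset SL(2, ℝ), (Ab.card : ℝ) ≤ C * R ∧
    ∀ (l l0 : ℝ) (g : SL(2, ℝ)) (J : Finset ℤ) (c : ℤ → ℂ) (Y : Set ℝ) (y0 y1 y2 : ℝ), 0 ≤ l → l ≤ l0 → l0 ≤ εc / 100 →
      (∀ j ∈ J, JC (WS Γ Ap At As (16 * a) p s1 \ FW Γ Ab a (Real.exp (-p))) εc l l0 g j) →
      MeasurableSet Y → Y ⊆ Icc 0 1 → volume.real Y ≤ y0 → (∀ v : ℝ, volume.real (Y ∩ Icc (v - θ0) (v + θ0)) ≤ y1) → (∀ v : ℝ, volume.real (Y ∩ Icc (v - 4 * Real.exp (-p)) (v + 4 * Real.exp (-p))) ≤ y2) →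
        ∫ v in Y, ‖∑ j ∈ J, c j * Complex.exp (((Real.pi * j * v / 2 : ℝ) : ℂ) * Complex.I)‖ ^ 2 ≤ C * Real.sqrt (EB At.card Ap.card As.card y0 y1 y2 p s1 θ0 R) * ∑ j ∈ J, ‖c j‖ ^ 2

/-- **Row CT1** (counting of the frequencies for one family of boxes; short-medium; from CTB, RS.GLC). `e g lM(l u) nM z aM τ lM ω = e g nM z' aM τ' lM ω'` with `z' = z/(1 + l u z)`, `|z' - z| ≤ l`, `|τ' - τ| ≤ 1/10`, `|ω'| ≤ 1/4`. So `j ∈ J` gives an occupied cell `m` of length `e^(-n)` in `z'` with `|m e^(-n) - j εc| ≤ 5 εc + e^(-n)`; at most `C |A|` cells (CTB),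
and at most `C (1/(εc e^n) + 1) = C'(Λ2 + 1)` values of `j` for each. -/
def CT1_stmt : Prop := ∀ Γ : Subgroup SL(2, ℝ), QU.SurfaceGroup Γ → ∃ C : ℝ, 0 < C ∧ ∀ (b Λ2 n εc l l0 : ℝ) (A : Finset SL(2, ℝ)) (g : SL(2, ℝ)) (J : Finset ℤ), 0 < b → b ≤ 1 / 100 → 1 ≤ Λ2 → 0 ≤ n → εc = Real.pi / (2 * Λ2) * Real.exp (-n) → εc ≤ 1 / 100 → 0 ≤ l → l ≤ l0 → l0 ≤ εc / 100 →
  (∀ j ∈ J, JC {h | h * aM (-n) ∈ FW Γ A b (Real.exp (-n))} εc l l0 g j) → (J.card : ℝ) ≤ C * Λ2 * A.card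

/-! ## C. Measure -/

/-- the points covered by the boxes -/
def BX (Γ : Subgroup SL(2, ℝ)) (A : Finset SL(2, ℝ)) (a n : ℝ) : Set (XG Γ) := {x | ∃ y ∈ A, ∃ h : SL(2, ℝ), bq a a (a * Real.exp (-n)) h ∧ x = mkX Γ (y * h)}

/-- the set where an invariant function is `1` -/
def one (Γ : Subgroup SL(2, ℝ)) (Ψ : SL(2, ℝ) → ℝ) : Set (XG Γ) := {x | ∃ g : SL(2, ℝ), x = mkX Γ g ∧ Ψ g = 1}

/-- **Row FLI** (short; EN.XFL). `Bow Γ δ n (fl t x) ⊇ fl t '' Bow Γ δ (n + ⌈|t|⌉₊) x`, and `fl t` preserves `μ`: `μ (Bow δ n (fl t x)) ≥ e^(-(s + ε) 2(n + k)) ≥ e^(-(s + 2ε) 2n)` for infinitely many `n` (for `s < 0` too: `|s|` bounded). -/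
def FLI_stmt : Prop := ∀ (Γ : Subgroup SL(2, ℝ)) (μ : Measure (XG Γ)) (s t : ℝ) (x : XG Γ), QU.SurfaceGroup Γ → IsProbabilityMeasure μ → (∀ t, μ.map (fl Γ t) = μ) → x ∈ Low Γ μ s → fl Γ t x ∈ Low Γ μ s

/-- **Row COV** (covering; medium; from ER.LDE and the rows used in helper93/ER/EZR.lean; the same proof: there the boxes cover the mass `μ Y - δ`, here all of `Y = Low Γ μ ρ` up to mass `δ`; the good set of the proof of EZR is `Y` minus a set of measure `≤ δ`, and it is covered; two sided words are moved by the flow: use FLI and that `fl t` is a measure preserving homeomorphism, so `μ (fl t ⁻¹' E) = μ E` for all `E`). -/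
def COV_stmt : Prop := ∀ (Γ : Subgroup SL(2, ℝ)) (μ : Measure (XG Γ)) (ρ : ℝ), QU.SurfaceGroup Γ → IsProbabilityMeasure μ → (∀ t, μ.map (fl Γ t) = μ) → 0 ≤ ρ →
  ∀ a η δ : ℝ, 0 < a → 0 < η → 0 < δ → ∃ n0 : ℕ, ∀ n : ℕ, n0 ≤ n → ∃ A : Finset SL(2, ℝ), (A.card : ℝ) ≤ Real.exp ((ρ + η) * n) ∧ μ.real (Low Γ μ ρ \ BX Γ A a n) ≤ δ

/-- **Row LOB** (few boxes have small mass outside of `Low`; medium; from helper93/ER/LSM.lean (measurability), EN.XFL, RS.GLC). `E_j` = the `x` with `μ.real (Bow (1/j) n x) < e^(-(s + 1/j) 2n)` for all `n ≥ j`: increasing in `j`, measurable, and every `x ∉ Low s` is in some `E_j`: `μ (Lowᶜ \ E_j) ≤ δ/2` for some `j`. `b1 ≤ 1/(10 j)`. Let `n = 2q`, `q` large, `|A| ≤ e^(2 s q)`. As `fl q` preserves `μ` and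
`Low` (FLI), `μ (Lowᶜ ∩ BX A b (2q)) ≤ δ/2 + Σ_(y ∈ A) μ (E_j ∩ fl q '' BX {y} b (2q))`; if the set is not empty, it is contained in `Bow (1/j) q x'` for one of its points `x'` (for `h, h'` in the box, `(aM (q + t))⁻¹ h'⁻¹ h aM (q + t)`, `|t| ≤ q`, has entries within `4b` of the identity), so each term is `≤ e^(-(s + 1/j) 2q)`;
the sum is `≤ e^(-2q/j) ≤ δ/2`. -/
def LOB_stmt : Prop := ∀ (Γ : Subgroup SL(2, ℝ)) (μ : Measure (XG Γ)) (s : ℝ), QU.SurfaceGroup Γ → IsProbabilityMeasure μ → (∀ t, μ.map (fl Γ t) = μ) → 0 ≤ s →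
  ∀ δ : ℝ, 0 < δ → ∃ b1 : ℝ, 0 < b1 ∧ ∀ b : ℝ, 0 < b → b ≤ b1 → ∃ q0 : ℕ, ∀ q : ℕ, q0 ≤ q → ∀ A : Finset SL(2, ℝ), (A.card : ℝ) ≤ Real.exp (s * (2 * q)) → μ.real (BX Γ A b (2 * q) \ Low Γ μ s) ≤ δ

/-- **Row SFP** (algebra of smooth functions; short). Product rule; `g nM x aM s = g aM s nM (e^(-s) x)`, `g lM u aM s = g aM s lM (e^s u)` (RS.GLC). -/
def SFP_stmt : Prop := ∀ (Γ : Subgroup SL(2, ℝ)) (Ψ Ψa Ψn Ψl : SL(2, ℝ) → ℝ), SF Γ Ψ Ψa Ψn Ψl →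
  (∀ Φ Φa Φn Φl : SL(2, ℝ) → ℝ, SF Γ Φ Φa Φn Φl → SF Γ (fun g => Ψ g * Φ g) (fun g => Ψa g * Φ g + Ψ g * Φa g) (fun g => Ψn g * Φ g + Ψ g * Φn g) (fun g => Ψl g * Φ g + Ψ g * Φl g)) ∧
  SF Γ (fun g => 1 - Ψ g) (fun g => -Ψa g) (fun g => -Ψn g) (fun g => -Ψl g) ∧
  ∀ s : ℝ, SF Γ (fun g => Ψ (g * aM s)) (fun g => Ψa (g * aM s)) (fun g => Real.exp (-s) * Ψn (g * aM s)) (fun g => Real.exp s * Ψl (g * aM s))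

/-- **Row FWD** (the forward function; medium; from MS.BXM, SFP, COV, FLI, YVO, EN.XFL). `a0 ≤ 1/1600` and the one of BXM. `Ψ = Ψ_0(g) Ψ_1(g a_(s0)) Ψ_2(g a_p)`, `Ψ_i` from BXM for the boxes of COV (`δ/3`) of the lengths `3p`, `3p - s0`, `2p`. Derivatives: `|Ψn| ≤ 3 C`, `|Ψl| ≤ 3 C e^(3p)`; `C3 = 3 C`. Mass: `Low \ one Ψ` is contained in the union of the
three sets `{x ∈ Low | fl σ x ∉ BX}`, of measure `≤ δ/3` (FLI, `fl` is a measure preserving homeomorphism). Lengths: YVO with `b = 16 a`, `(σ, k) = (0, 3p), (s0, 3p - s0), (p, 2p)`. -/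
def FWD_stmt : Prop := ∀ (Γ : Subgroup SL(2, ℝ)) (μ : Measure (XG Γ)) (ρ : ℝ), QU.SurfaceGroup Γ → IsProbabilityMeasure μ → (∀ t, μ.map (fl Γ t) = μ) → 0 ≤ ρ → ∃ a0 : ℝ, 0 < a0 ∧ ∀ a : ℝ, 0 < a → a ≤ a0 → ∃ C3 : ℝ, 1 ≤ C3 ∧
  ∀ η δ : ℝ, 0 < η → 0 < δ → ∃ p0 : ℕ, ∀ p s0 : ℕ, p0 ≤ p → s0 ≤ p → ∃ Ψ Ψa Ψn Ψl : SL(2, ℝ) → ℝ, SF Γ Ψ Ψa Ψn Ψl ∧ (∀ g, 0 ≤ Ψ g ∧ Ψ g ≤ 1) ∧ (∀ g, |Ψn g| ≤ C3) ∧ (∀ g, |Ψl g| ≤ C3 * Real.exp (3 * p)) ∧ μ.real (Low Γ μ ρ \ one Γ Ψ) ≤ δ ∧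
    ∀ g : SL(2, ℝ), volume.real (Icc (0 : ℝ) 1 ∩ {v | Ψ (g * lM v) ≠ 0}) ≤ C3 * Real.exp ((ρ + η) * (3 * p) - 3 * p) ∧
      (∀ v0 : ℝ, volume.real (Icc (0 : ℝ) 1 ∩ {v | Ψ (g * lM v) ≠ 0} ∩ Icc (v0 - Real.exp (-s0)) (v0 + Real.exp (-s0))) ≤ C3 * Real.exp ((ρ + η) * (3 * p - s0) - 3 * p)) ∧
      ∀ v0 : ℝ, volume.real (Icc (0 : ℝ) 1 ∩ {v | Ψ (g * lM v) ≠ 0} ∩ Icc (v0 - 4 * Real.exp (-p)) (v0 + 4 * Real.exp (-p))) ≤ C3 * Real.exp ((ρ + η) * (2 * p) - 3 * p)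

/-- **Row BK1** (first backward function; short-medium; from MS.BXM, COV, CT1). `Ψ` from BXM for the boxes of COV of length `3p`; `Ψ ≠ 0` implies `∈ FW Γ A (16a) e^(-3p)`; CT1 with `n = 3p`. -/
def BK1_stmt : Prop := ∀ (Γ : Subgroup SL(2, ℝ)) (μ : Measure (XG Γ)) (a1 : ℝ), QU.SurfaceGroup Γ → IsProbabilityMeasure μ → (∀ t, μ.map (fl Γ t) = μ) → 0 ≤ a1 → ∀ Λ2 η δ : ℝ, 1 ≤ Λ2 → 0 < η → 0 < δ → ∃ (C : ℝ) (p0 : ℕ), 1 ≤ C ∧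
  ∀ (p : ℕ) (εc : ℝ), p0 ≤ p → εc = Real.pi / (2 * Λ2) * Real.exp (-(3 * p)) → ∃ (Ψ Ψa Ψn Ψl : SL(2, ℝ) → ℝ) (B : ℝ), SF Γ Ψ Ψa Ψn Ψl ∧ (∀ g, 0 ≤ Ψ g ∧ Ψ g ≤ 1) ∧ (∀ g, |Ψn g| ≤ B) ∧ (∀ g, |Ψl g| ≤ B) ∧ μ.real (Low Γ μ a1 \ one Γ Ψ) ≤ δ ∧
    ∀ (l l0 : ℝ) (g : SL(2, ℝ)) (J : Finset ℤ), 0 ≤ l → l ≤ l0 → l0 ≤ εc / 100 → (∀ j ∈ J, JC {h | Ψ (h * aM (-(3 * p))) ≠ 0} εc l l0 g j) → (J.card : ℝ) ≤ C * Real.exp ((a1 + η) * (3 * p))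

/-- **Row BK2** (second backward function; medium; from MS.BXM, SFP, COV, FLI, LOB, LFX, EN.XFL). `p = 2q`, `R = e^q`. `a` so small that `16 a ≤ b1` (LOB for `a1`, `δ/4`), `a ≤ 1/1600`. `Ap, At, As` from COV for `h` (`δ/4`), lengths `p, 2p, 2p - s1`; `Ab` from LFX, `|Ab| ≤ C e^q ≤ e^(a1 · 2q)`. `Ψ(g) = Ψ_p(g) Ψ_t(g a_p) Ψ_s(g a_p) (1 - Ψ_b(g a_(3p)))`, all from BXM.
`Ψ(k a_(-3p)) ≠ 0` implies `k ∈ WS Γ Ap At As (16a) p s1` and `k ∉ FW Γ Ab a e^(-p)`. Mass: `(Low h \ Low a1) \ one Ψ` is contained in the three sets `{x ∈ Low h | fl σ x ∉ BX}` and `{x ∉ Low a1 | fl (3p) x ∈ BX Ab (16a) p}` (`Ψ_b ≠ 0` implies the box of size `16a`). The bound of LFX, monotone in the cardinalities. -/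
def BK2_stmt : Prop := ∀ (Γ : Subgroup SL(2, ℝ)) (μ : Measure (XG Γ)) (h a1 : ℝ), QU.SurfaceGroup Γ → IsProbabilityMeasure μ → (∀ t, μ.map (fl Γ t) = μ) → 1 / 2 < a1 → a1 ≤ h → h ≤ 1 → ∀ Λ2 η δ : ℝ, 1 ≤ Λ2 → 0 < η → 0 < δ → ∃ (C : ℝ) (q0 : ℕ), 1 ≤ C ∧
  ∀ (q s1 : ℕ) (εc θ0 : ℝ), q0 ≤ q → s1 ≤ 2 * q → 0 < θ0 → θ0 ≤ 1 → εc = Real.pi / (2 * Λ2) * Real.exp (-(3 * (2 * q))) → ∃ (Ψ Ψa Ψn Ψl : SL(2, ℝ) → ℝ) (B : ℝ), SF Γ Ψ Ψa Ψn Ψl ∧ (∀ g, 0 ≤ Ψ g ∧ Ψ g ≤ 1) ∧ (∀ g, |Ψn g| ≤ B) ∧ (∀ g, |Ψl g| ≤ B) ∧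
    μ.real ((Low Γ μ h \ Low Γ μ a1) \ one Γ Ψ) ≤ δ ∧
    ∀ (l l0 : ℝ) (g : SL(2, ℝ)) (J : Finset ℤ) (c : ℤ → ℂ) (Y : Set ℝ) (y0 y1 y2 : ℝ), 0 ≤ l → l ≤ l0 → l0 ≤ εc / 100 → (∀ j ∈ J, JC {k | Ψ (k * aM (-(3 * (2 * q)))) ≠ 0} εc l l0 g j) →
      MeasurableSet Y → Y ⊆ Icc 0 1 → volume.real Y ≤ y0 → (∀ v : ℝ, volume.real (Y ∩ Icc (v - θ0) (v + θ0)) ≤ y1) → (∀ v : ℝ, volume.real (Y ∩ Icc (v - 4 * Real.exp (-(2 * q))) (v + 4 * Real.exp (-(2 * q)))) ≤ y2) →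
        ∫ v in Y, ‖∑ j ∈ J, c j * Complex.exp (((Real.pi * j * v / 2 : ℝ) : ℂ) * Complex.I)‖ ^ 2 ≤
          C * Real.sqrt (EB (Real.exp ((h + η) * (2 * (2 * q)))) (Real.exp ((h + η) * (2 * q))) (Real.exp ((h + η) * (2 * (2 * q) - s1))) y0 y1 y2 (2 * q) s1 θ0 (Real.exp q)) * ∑ j ∈ J, ‖c j‖ ^ 2

/-! ## D. The operator -/

/-- **Row LCK** (localisation; short-medium; pure matrices; compare helper62/HF/LCG.lean). `k = [[p, q], [c, d]]`: `Im (k w) = Im w/|c w + d|²`, so `e^(-1/4) - 2|c| ≤ |d| ≤ e^(1/4) + 2|c|`; `k = ± nM x0 aM τ lM ω`, `x0 = q/d`, `e^(-τ/2) = |d|`, `ω = c/d`; `k w = x0 + e^τ w/(ω w + 1)`, `|Re (w/(ω w + 1))| ≤ |Re w| + 3|ω|`. -/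
def LCK_stmt : Prop := ∀ (ε ξ : ℝ) (k : SL(2, ℝ)) (w : ℍ), 0 < ε → ε ≤ 1 / 100 → |k.1 1 0| ≤ ε / 100 → |w.re| ≤ ε / 100 → |Real.log w.im| ≤ 1 / 4 → |(k • w).re - ξ| ≤ ε → |Real.log (k • w).im| ≤ 1 / 4 →
  ∃ (x τ o : ℝ) (e : SL(2, ℝ)), (e = 1 ∨ e = -1) ∧ |x| ≤ 4 * ε ∧ |τ| ≤ 3 / 5 ∧ |o| ≤ 2 * |k.1 1 0| ∧ k = e * nM (ξ + x) * aM τ * lM o

/-- the leaf condition on a pair of functions -/
def LFC (Ψ Ψ' : SL(2, ℝ) → ℝ) (n εc l0 Q : ℝ) : Prop := ∀ (l : ℝ) (g g' : SL(2, ℝ)) (J : Finset ℤ) (c : ℤ → ℂ), 0 ≤ l → l ≤ l0 → (∀ j ∈ J, JC {h | Ψ' (h * aM (-n)) ≠ 0} εc l l0 g j) →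
  ∫ v in Icc (0 : ℝ) 1 ∩ {v | Ψ (g' * lM v) ≠ 0}, ‖∑ j ∈ J, c j * Complex.exp (((Real.pi * j * v / 2 : ℝ) : ℂ) * Complex.I)‖ ^ 2 ≤ Q * ∑ j ∈ J, ‖c j‖ ^ 2

/-- **Row HMG** (the main estimate for general functions; short-medium; from HV.PVG (`Pool.Agent.helper62.HF.SpecW`, PROVED in helper47/HF/PVG.lean), LCK, RS.GLC). PVG with `C1 = C3 e^n`, `C2 = max B' 1`, `n' = n`, `lam = L0`, `Q = δ²/128`, `δ1 = min (εc/100) (l0/2)`, `J0 = ⌈1/(4 εc)⌉₊`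
(`J0 εc ≤ 3/10`: `L0 ≥ 2/δ`, so `εc ≤ 1/100`), `s` with `K C2 e^(-s) ≤ δ/2`, `e^(-s)/4 ≤ εc/100`; `Dp = {g | ∃ x τ ω e, .. , Ψ' (e g nM x aM τ lM ω aM(-n)) ≠ 0}` (`|x| ≤ 4 εc`, `|τ| ≤ 3/5`, `|ω| ≤ l0`): open (a union of right translates of an open set) and `Γ`-invariant (`e` central). `hloc`: LCK with `ξ = j εc`:
`k = e nM(j εc + x) aM τ lM ω`. `10 δ + 100 √δ ≤ ε`. -/
def HMG_stmt : Prop := ∀ (Γ : Subgroup SL(2, ℝ)) (F : Set ℍ) (β α : ℝ → ℝ), QU.SurfaceGroup Γ → QU.NiceDom Γ F → BB (1 / 4) β → BA (1 / 8) α → ∃ K : ℝ, 1 ≤ K ∧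
  ∀ (ε C3 δ L0 εc B' l0 : ℝ) (n : ℕ) (Ψ Ψa Ψn Ψl Ψ' Ψa' Ψn' Ψl' : SL(2, ℝ) → ℝ), 0 < ε → ε ≤ 1 → 1 ≤ C3 → 0 < δ → δ ≤ (ε / 200) ^ 2 → L0 = 2 * K * (C3 * Real.exp n) / δ → εc = Real.pi / (4 * L0) → 0 < l0 →
    SF Γ Ψ Ψa Ψn Ψl → SF Γ Ψ' Ψa' Ψn' Ψl' → (∀ g, 0 ≤ Ψ g ∧ Ψ g ≤ 1) → (∀ g, 0 ≤ Ψ' g ∧ Ψ' g ≤ 1) → (∀ g, |Ψn g| ≤ C3) → (∀ g, |Ψl g| ≤ C3 * Real.exp n) → (∀ g, |Ψn' g| ≤ B') → (∀ g, |Ψl' g| ≤ B') →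
    LFC Ψ Ψ' n εc l0 (δ ^ 2 / 128) →
    ∃ r2 : ℝ, 1 ≤ r2 ∧ ∀ (r m t : ℝ) (φ : ℍ → ℂ), r2 ≤ r → EigL Γ (1 / 4 + r ^ 2) φ → nn F φ = 1 → 0 ≤ m → m ≤ 2 → Real.sqrt (Real.log r) ≤ t → t ≤ Real.log r - Real.sqrt (Real.log r) →
      (m - 4 * δ) * qn F (pc β α) r φ < iR F (fun g => (Ψ (g * aM t) + Ψ' (g * aM t)) * ‖pf β α r φ g‖ ^ 2) → m ≤ 1 + ε

/-- **Row HLG** (short; the proof of helper18/HF/HLF.lean with HMG in place of HM1: `m = min 2 (μ (one Ψ) + μ (one Ψ'))`, `μ (one Ψ) ≤ ∫ lift Ψ dμ`). -/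
def HLG_stmt : Prop := ∀ (Γ : Subgroup SL(2, ℝ)) (F : Set ℍ) (r : ℕ → ℝ) (φ : ℕ → ℍ → ℂ) (ν : Measure (MG Γ)), QU.SurfaceGroup Γ → IsFundamentalDomain Γ F (volume : Measure ℍ) → Tendsto r atTop atTop → (∀ k, Eig Γ (r k) (φ k)) →
  (∀ k, ∫ z in F, ‖φ k z‖ ^ 2 = 1) → IsFiniteMeasure ν → (∀ V : MG Γ → ℝ, Continuous V → Tendsto (fun k => ∫ z in F, V (mkM Γ z) * ‖φ k z‖ ^ 2) atTop (𝓝 (∫ x, V x ∂ν))) →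
  ∃ μ : Measure (XG Γ), IsProbabilityMeasure μ ∧ (∀ t, μ.map (fl Γ t) = μ) ∧ μ.map (pr Γ) = ν ∧ ∃ K : ℝ, 1 ≤ K ∧
    ∀ (ε C3 δ L0 εc B' l0 : ℝ) (n : ℕ) (Ψ Ψa Ψn Ψl Ψ' Ψa' Ψn' Ψl' : SL(2, ℝ) → ℝ), 0 < ε → ε ≤ 1 → 1 ≤ C3 → 0 < δ → δ ≤ (ε / 200) ^ 2 → L0 = 2 * K * (C3 * Real.exp n) / δ → εc = Real.pi / (4 * L0) → 0 < l0 →
      SF Γ Ψ Ψa Ψn Ψl → SF Γ Ψ' Ψa' Ψn' Ψl' → (∀ g, 0 ≤ Ψ g ∧ Ψ g ≤ 1) → (∀ g, 0 ≤ Ψ' g ∧ Ψ' g ≤ 1) → (∀ g, |Ψn g| ≤ C3) → (∀ g, |Ψl g| ≤ C3 * Real.exp n) → (∀ g, |Ψn' g| ≤ B') → (∀ g, |Ψl' g| ≤ B') →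
      LFC Ψ Ψ' n εc l0 (δ ^ 2 / 128) → μ.real (one Γ Ψ) + μ.real (one Γ Ψ') ≤ 1 + ε

/-! ## E. The end -/

/-- **Row NUM** (the exponents; short-medium; pure). `μ0 = 2h - 1`, `β = μ0 (1 - h)/200`, `ρ = 1 - h + β`, `p = 2q`. With `η = 0`, `s0 = μ0 p/16`, `s1 = μ0 p/4` the exponents of the three terms of `EB` (divided by `p`; `θ0 = e^(-s0)`, `R = e^(p/2)`) are: first `6β - ρ μ0/16 ≤ (1 - h) μ0 (6/200 - 1/16) < 0`; second, with the first part of the root: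
`-(h - 1/2)/2 + 5.5 β + s0/p + s1/(2p) ≤ μ0 (-1/4 + 5.5/400 + 1/16 + 1/8) < 0`; with the second part of the root: `5.5 β + s0/(2p) - h s1/(2p) ≤ μ0 (5.5/400 + 1/32 - 1/16) < 0`. `η` small and `q` large (the floors change the exponents by `O(1)`). -/
def NUM_stmt : Prop := ∀ h ρ : ℝ, 1 / 2 < h → h < 1 → ρ = (1 - h) * (1 + (2 * h - 1) / 200) → ∃ η : ℝ, 0 < η ∧ ∀ C Q : ℝ, 1 ≤ C → 0 < Q → ∃ q0 : ℕ, ∀ q s0 s1 : ℕ, q0 ≤ q → s0 = ⌊(2 * h - 1) * (2 * q) / 16⌋₊ → s1 = ⌊(2 * h - 1) * (2 * q) / 4⌋₊ →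
  s0 ≤ 2 * q ∧ s1 ≤ 2 * q ∧
  C * Real.sqrt (EB (Real.exp ((h + η) * (2 * (2 * q)))) (Real.exp ((h + η) * (2 * q))) (Real.exp ((h + η) * (2 * (2 * q) - s1))) (C * Real.exp ((ρ + η) * (3 * (2 * q)) - 3 * (2 * q))) (C * Real.exp ((ρ + η) * (3 * (2 * q) - s0) - 3 * (2 * q)))
    (C * Real.exp ((ρ + η) * (2 * (2 * q)) - 3 * (2 * q))) (2 * q) s1 (Real.exp (-s0)) (Real.exp q)) ≤ Q

/-- **Row IRM** (the theorem; medium; from HLG, FWD, BK1, BK2, SFP, NUM). Fix `h`, `ρ`; `a1 = 1 - ρ - ε'` with `1/2 < a1 ≤ h` (`1 - ρ = h - β > 1/2`). `δm > 0` (mass), `ε > 0`. FWD: `a`, `C3`. `δ = (ε/200)²`, `K` from HLG, `Λ2 = 4 K C3/δ` (so `εc = π/(4 L0) = π/(2 Λ2) e^(-3p)`, `n = 3p`). `η` = the one of NUM and `≤ ε'/4`. `q` large, `p = 2q`, `s0, s1` from NUM, `θ0 = e^(-s0)`.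
`Ψ` from FWD, `Ψ1` from BK1 (`a1`), `Ψ2` from BK2, `Ψ' = 1 - (1 - Ψ1)(1 - Ψ2)` (SFP). LFC: `Y = Icc 0 1 ∩ {v | Ψ (g' lM v) ≠ 0}` (open, so measurable), `J = J1 ∪ J2` by which of `Ψ1, Ψ2` is not zero at the point of `JC`; `|Σ_J|² ≤ 2|Σ_J1|² + 2|Σ_J2|²`, `∫_Y |Σ_J1|² ≤ |J1| |Y| Σ|c|² ≤ C C3 e^((a1 + ρ - 1 + 2η) 3p) Σ|c|²` (`→ 0`), the second by BK2 and NUM. `l0 = εc/100`.
HLG: `μ (one Ψ) + μ (one Ψ') ≤ 1 + ε`; `μ (Low ρ) ≤ μ (one Ψ) + δm`, `Low h ⊆ one Ψ' ∪ (Low a1 \ one Ψ1) ∪ ((Low h \ Low a1) \ one Ψ2)`. -/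
def IRM_stmt : Prop := ∀ (Γ : Subgroup SL(2, ℝ)) (F : Set ℍ) (r : ℕ → ℝ) (φ : ℕ → ℍ → ℂ) (ν : Measure (MG Γ)), QU.SurfaceGroup Γ → IsFundamentalDomain Γ F (volume : Measure ℍ) → Tendsto r atTop atTop → (∀ k, Eig Γ (r k) (φ k)) →
  (∀ k, ∫ z in F, ‖φ k z‖ ^ 2 = 1) → IsFiniteMeasure ν → (∀ V : MG Γ → ℝ, Continuous V → Tendsto (fun k => ∫ z in F, V (mkM Γ z) * ‖φ k z‖ ^ 2) atTop (𝓝 (∫ x, V x ∂ν))) →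
  ∃ μ : Measure (XG Γ), IsProbabilityMeasure μ ∧ (∀ t, μ.map (fl Γ t) = μ) ∧ μ.map (pr Γ) = ν ∧ ∀ h : ℝ, 1 / 2 < h → h < 1 → μ.real (Low Γ μ h) + μ.real (Low Γ μ ((1 - h) * (1 + (2 * h - 1) / 200))) ≤ 1

end

end Pool.Agent.IR
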