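import Pool.Agent.helper52.IR.Spec

/-!
# MP_07c750, project IR: the mean entropy (corollary), rows `ir:LOC`, `ir:MEN`

COROLLARY. `∫ h dμ ≥ 1/2 + (1/200) ∫ (2h - 1)⁺ (1 - h)⁺ dμ`, `h` the local entropy: strictly better than the bound `1/2` of Anantharaman and Nonnenmacher as soon as the limit has components with entropy strictly between `1/2` and `1`. Rules as in `Spec`.
-/

open scoped MatrixGroups ContDiff Topology UpperHalfPlane ComplexConjugate ENNReal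
open UpperHalfPlane MeasureTheory Filter Set

set_option autoImplicit false

namespace Pool.Agent.IR

open Pool.Agent.RS
open Pool.Agent.EN (XG MG mkX mkM fl pr)
open Pool.Agent.ER (Low LowJ)

noncomputable section

/-- the minimum of `1` and the lower local entropy (Brin and Katok) of `μ` at `x` -/
def loc (Γ : Subgroup SL(2, ℝ)) (μ : Measure (XG Γ)) (x : XG Γ) : ℝ := sInf ({t : ℝ | 0 ≤ t ∧ x ∈ Low Γ μ t} ∪ {1})

/-- **Row LOC** (short; from helper93/ER/LSM.lean (`Low` is measurable)). `Low Γ μ s` is increasing in `s` and `Low Γ μ s = ⋂_(ε > 0) Low Γ μ (s + ε)` (from the definition: `∀ ε`), so for `0 ≤ t < 1`: `loc x ≤ t` if and only if `x ∈ Low Γ μ t`. Measurable: the sets `{loc ≤ t}` are `∅` (`t < 0`), `Low t` (`0 ≤ t < 1`), everything (`t ≥ 1`). -/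
def LOC_stmt : Prop := ∀ (Γ : Subgroup SL(2, ℝ)) (μ : Measure (XG Γ)), QU.SurfaceGroup Γ → IsProbabilityMeasure μ →
  Measurable (loc Γ μ) ∧ (∀ x, 0 ≤ loc Γ μ x ∧ loc Γ μ x ≤ 1) ∧ ∀ t : ℝ, 0 ≤ t → t < 1 → {x | loc Γ μ x ≤ t} = Low Γ μ t

/-- **Row MEN** (short-medium; PURE). `F(t) = μ {f ≤ t}`, `∫ f = ∫_0^1 (1 - F)` (layer cake). `R(t) = (1 - t)(1 + (2t - 1)/200) = (1 - t) + b(t)`, `b(t) = (2t - 1)(1 - t)/200`, is decreasing from `1/2` to `0` on `[1/2, 1]`. `∫_0^(1/2) F(s) ds = ∫_(1/2)^1 F(R(t)) (-R'(t)) dt ≤ ∫_(1/2)^1 (1 - F(t)) (-R'(t)) dt`, so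
`∫ f ≥ 1/2 + ∫_(1/2)^1 (1 - F(t)) (1 + R'(t)) dt = 1/2 + ∫_(1/2)^1 (1 - F(t)) b'(t) dt = 1/2 + E ∫_(1/2)^1 1{f > t} b'(t) dt = 1/2 + E (b(f) 1{f > 1/2})`. -/
def MEN_stmt : Prop := ∀ (X : Type) [MeasurableSpace X] (μ : Measure X) (f : X → ℝ), IsProbabilityMeasure μ → Measurable f → (∀ x, 0 ≤ f x ∧ f x ≤ 1) →
  (∀ h : ℝ, 1 / 2 < h → h < 1 → μ.real {x | f x ≤ h} + μ.real {x | f x ≤ (1 - h) * (1 + (2 * h - 1) / 200)} ≤ 1) →
    1 / 2 + 1 / 200 * ∫ x, max 0 ((2 * f x - 1) * (1 - f x)) ∂μ ≤ ∫ x, f x ∂μ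

end

end Pool.Agent.IR
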